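import Pool.Agent.H30.BDFP.Win

attribute [local instance] Pool.Agent.H33.BDFP.NV.instNACG Pool.Agent.H33.BDFP.NV.instModule
  Pool.Agent.H33.BDFP.NV.instNormedSpace Pool.Agent.H33.BDFP.NV.instFD
  Pool.Agent.H33.BDFP.NV.instComplete

/-!
Module DIL of the project BDFP, part 3: the windows almost commute with the operators.
-/

open scoped ENNReal NNReal

noncomputable section

namespace Pool.Agent.H30.BDFP

open Pool.Agent.H33.BDFP Pool.Agent.H74.BDFP

/-- copies of `l^p` -/
abbrev LW (p : ℝ≥0∞) [Fact (1 ≤ p)] : Type := lp (fun _ : ℕ => LP p) p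

section

variable {p : ℝ≥0∞} [Fact (1 ≤ p)]

/-- multiplication by a bounded real function -/
def mulW (w : ℕ → ℝ) (h : ∀ n, 0 ≤ w n ∧ w n ≤ 1) : LP p →L[ℂ] LP p :=
  lp.mapCLM p (fun n => ((w n : ℝ) : ℂ) • ContinuousLinearMap.id ℂ ℂ) (K := 1) zero_le_one
    (fun n => by
      rw [norm_smul, Complex.norm_real, Real.norm_of_nonneg (h n).1]
      exact mul_le_one₀ (h n).2 (norm_nonneg _) ContinuousLinearMap.norm_id_le)

lemma mulW_apply (w : ℕ → ℝ) (h : ∀ n, 0 ≤ w n ∧ w n ≤ 1) (x : LP p) (n : ℕ) :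
    mulW w h x n = (w n : ℂ) * x n := rfl

lemma norm_mulW_le (w : ℕ → ℝ) (h : ∀ n, 0 ≤ w n ∧ w n ≤ 1) :
    ‖(mulW w h : LP p →L[ℂ] LP p)‖ ≤ 1 := lp.norm_mapCLM_le p _ zero_le_one _

/-- the window `k` -/
def qW (p : ℝ≥0∞) [Fact (1 ≤ p)] (β : ℕ → ℕ) (k : ℕ) : LP p →L[ℂ] LP p :=
  mulW (fun n => win k (β n)) (fun _ => ⟨win_nonneg _ _, win_le_one _ _⟩)

lemma qW_apply (β : ℕ → ℕ) (k : ℕ) (x : LP p) (n : ℕ) :
    qW p β k x n = (win k (β n) : ℂ) * x n := rfl

lemma sum_norm_qW (hp : p ≠ ∞) (β : ℕ → ℕ) (x : LP p) (s : Finset ℕ) :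
    ∑ k ∈ s, ‖qW p β k x‖ ^ p.toReal ≤ (2 * ‖x‖) ^ p.toReal := by
  have hP0 := toReal_pos' (p := p) hp
  have hP1 := one_le_toReal' (p := p) hp
  have h1 := hasSum_sum (fun k (_ : k ∈ s) => lp.hasSum_norm hP0 (qW p β k x))
  have h2 := (lp.hasSum_norm hP0 x).mul_left 2
  have h3 : ∑ k ∈ s, ‖qW p β k x‖ ^ p.toReal ≤ 2 * ‖x‖ ^ p.toReal := by
    refine hasSum_le (fun n => ?_) h1 h2
    calc ∑ k ∈ s, ‖qW p β k x n‖ ^ p.toReal
        ≤ ∑ k ∈ s, chi k (β n) * ‖x n‖ ^ p.toReal := by
          refine Finset.sum_le_sum fun k _ => ?_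
          rw [qW_apply, norm_mul, Complex.norm_real, Real.norm_of_nonneg (win_nonneg _ _)]
          by_cases h : k = Nat.sqrt (β n) ∨ k = Nat.sqrt (β n) + 1
          · have h4 : chi k (β n) = 1 := if_pos h
            rw [h4, one_mul]
            exact Real.rpow_le_rpow (by have := win_nonneg k (β n); positivity)
              (mul_le_of_le_one_left (norm_nonneg _) (win_le_one _ _)) hP0.le
          · rw [win_zero h, zero_mul, Real.zero_rpow hP0.ne']
            exact mul_nonneg (chi_nonneg _ _) (Real.rpow_nonneg (norm_nonneg _) _)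
      _ ≤ 2 * ‖x n‖ ^ p.toReal := by
          rw [← Finset.sum_mul]
          exact mul_le_mul_of_nonneg_right (sum_chi_le s _) (Real.rpow_nonneg (norm_nonneg _) _)
  refine h3.trans ?_
  rw [Real.mul_rpow (by norm_num) (norm_nonneg _)]
  refine mul_le_mul_of_nonneg_right ?_ (Real.rpow_nonneg (norm_nonneg _) _)
  calc (2 : ℝ) = 2 ^ (1 : ℝ) := (Real.rpow_one 2).symm
    _ ≤ 2 ^ p.toReal := Real.rpow_le_rpow_of_exponent_le (by norm_num) hP1

/-- all the windows -/
def QW (hp : p ≠ ∞) (β : ℕ → ℕ) : LP p →L[ℂ] LW p :=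
  LinearMap.mkContinuous
    { toFun := fun x => ⟨fun k => qW p β k x, memℓp_gen' (sum_norm_qW hp β x)⟩
      map_add' := fun x y => by
        refine lp.ext (funext fun k => ?_)
        change qW p β k (x + y) = qW p β k x + qW p β k y
        rw [map_add]
      map_smul' := fun c x => by
        refine lp.ext (funext fun k => ?_)
        change qW p β k (c • x) = c • qW p β k x
        rw [map_smul] }
    2 (fun x => lp.norm_le_of_forall_sum_le (toReal_pos' (p := p) hp) (by positivity)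
      (sum_norm_qW hp β x))

lemma QW_apply (hp : p ≠ ∞) (β : ℕ → ℕ) (x : LP p) (k : ℕ) : QW hp β x k = qW p β k x := rfl

lemma sum_norm_V (hp : p ≠ ∞) (κ : ℕ → ℕ) (w : LW p) (t : Finset ℕ) :
    ∑ n ∈ t, ‖w (κ n) n‖ ^ p.toReal ≤ ‖w‖ ^ p.toReal := by
  have hP0 := toReal_pos' (p := p) hp
  rw [← Finset.sum_fiberwise_of_maps_to (fun n hn => Finset.mem_image_of_mem κ hn)]
  refine le_trans (Finset.sum_le_sum fun k _ => ?_) (lp.sum_rpow_le_norm_rpow hP0 w (t.image κ))
  refine le_trans (le_of_eq ?_) (lp.sum_rpow_le_norm_rpow hP0 (w k) (t.filter (fun n => κ n = k)))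
  refine Finset.sum_congr rfl fun n hn => ?_
  rw [(Finset.mem_filter.1 hn).2]

/-- diagonal selection -/
def VW (hp : p ≠ ∞) (κ : ℕ → ℕ) : LW p →L[ℂ] LP p :=
  LinearMap.mkContinuous
    { toFun := fun w => ⟨fun n => w (κ n) n, memℓp_gen' (sum_norm_V hp κ w)⟩
      map_add' := fun _ _ => rfl
      map_smul' := fun _ _ => rfl }
    1 (fun w => by
      rw [one_mul]
      exact lp.norm_le_of_forall_sum_le (toReal_pos' (p := p) hp) (norm_nonneg _)
        (sum_norm_V hp κ w))

lemma VW_apply (hp : p ≠ ∞) (κ : ℕ → ℕ) (w : LW p) (n : ℕ) : VW hp κ w n = w (κ n) n := rfl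

/-- the transposed windows -/
def QW' (hp : p ≠ ∞) (β : ℕ → ℕ) : LW p →L[ℂ] LP p :=
  mulW (fun n => win (Nat.sqrt (β n)) (β n)) (fun _ => ⟨win_nonneg _ _, win_le_one _ _⟩) ∘L
    VW hp (fun n => Nat.sqrt (β n)) +
  mulW (fun n => win (Nat.sqrt (β n) + 1) (β n)) (fun _ => ⟨win_nonneg _ _, win_le_one _ _⟩) ∘L
    VW hp (fun n => Nat.sqrt (β n) + 1)

lemma QW'_apply (hp : p ≠ ∞) (β : ℕ → ℕ) (w : LW p) (n : ℕ) : QW' hp β w n =
    (win (Nat.sqrt (β n)) (β n) : ℂ) * w (Nat.sqrt (β n)) n +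
    (win (Nat.sqrt (β n) + 1) (β n) : ℂ) * w (Nat.sqrt (β n) + 1) n := rfl

lemma QW'_QW (hp : p ≠ ∞) (β : ℕ → ℕ) :
    QW' hp β ∘L QW hp β = ContinuousLinearMap.id ℂ (LP p) := by
  refine ContinuousLinearMap.ext fun x => lp.ext (funext fun n => ?_)
  change QW' hp β (QW hp β x) n = x n
  rw [QW'_apply, QW_apply, QW_apply, qW_apply, qW_apply, ← mul_assoc, ← mul_assoc, ← add_mul]
  have h := win_sq (β n)
  have h2 : ((win (Nat.sqrt (β n)) (β n) : ℝ) : ℂ) * (win (Nat.sqrt (β n)) (β n) : ℝ) +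
      ((win (Nat.sqrt (β n) + 1) (β n) : ℝ) : ℂ) * (win (Nat.sqrt (β n) + 1) (β n) : ℝ) = 1 := by
    rw [← Complex.ofReal_mul, ← Complex.ofReal_mul, ← Complex.ofReal_add, ← sq, ← sq, h,
      Complex.ofReal_one]
  rw [h2, one_mul]

lemma QW'_single (hp : p ≠ ∞) (β : ℕ → ℕ) (k : ℕ) (x : LP p) :
    QW' hp β (lp.single p k x) = qW p β k x := by
  refine lp.ext (funext fun n => ?_)
  rw [QW'_apply, qW_apply]
  by_cases h1 : k = Nat.sqrt (β n)
  · subst h1
    rw [lp.single_apply_self, lp.single_apply_ne (E := fun _ : ℕ => LP p) p (Nat.sqrt (β n)) x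
      (Nat.succ_ne_self _)]
    change _ + _ * (0 : ℂ) = _
    rw [mul_zero, add_zero]
  · by_cases h2 : k = Nat.sqrt (β n) + 1
    · subst h2
      rw [lp.single_apply_self, lp.single_apply_ne (E := fun _ : ℕ => LP p) p
        (Nat.sqrt (β n) + 1) x (Nat.succ_ne_self _).symm]
      change _ * (0 : ℂ) + _ = _
      rw [mul_zero, zero_add]
    · rw [lp.single_apply_ne (E := fun _ : ℕ => LP p) p k x (Ne.symm h1),
        lp.single_apply_ne (E := fun _ : ℕ => LP p) p k x (Ne.symm h2), win_zero (not_or.2 ⟨h1, h2⟩)]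
      change _ * (0 : ℂ) + _ * (0 : ℂ) = _
      rw [mul_zero, mul_zero, add_zero, Complex.ofReal_zero, zero_mul]

/-- copies of an operator -/
def infW (p : ℝ≥0∞) [Fact (1 ≤ p)] (T : LP p →L[ℂ] LP p) : LW p →L[ℂ] LW p :=
  lp.mapCLM p (fun _ : ℕ => T) (norm_nonneg T) (fun _ => le_rfl)

lemma infW_apply (T : LP p →L[ℂ] LP p) (w : LW p) (k : ℕ) : infW p T w k = T (w k) := rfl

lemma norm_infW_le (T : LP p →L[ℂ] LP p) : ‖infW p T‖ ≤ ‖T‖ :=
  lp.norm_mapCLM_le p _ (norm_nonneg T) _

lemma infW_single (T : LP p →L[ℂ] LP p) (k : ℕ) (x : LP p) :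
    infW p T (lp.single p k x) = lp.single p k (T x) := by
  refine lp.ext (funext fun n => ?_)
  rw [infW_apply]
  by_cases h : n = k
  · subst h
    rw [lp.single_apply_self, lp.single_apply_self]
  · rw [lp.single_apply_ne (E := fun _ : ℕ => LP p) p k x h,
      lp.single_apply_ne (E := fun _ : ℕ => LP p) p k (T x) h, map_zero]

/-! ### compactness -/

variable {β N : ℕ → ℕ}

lemma blk_eq (hβ : ∀ n j, β n = j ↔ n ∈ blk N j) (j : ℕ) : {n | β n = j} = blk N j :=
  Set.ext fun n => hβ n j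

lemma lt_iff_beta (hN : StrictMono N) (hβ : ∀ n j, β n = j ↔ n ∈ blk N j) (n l : ℕ) :
    N l ≤ n ↔ l ≤ β n := by
  have h := (hβ n (β n)).1 rfl
  constructor
  · intro h1
    by_contra h2
    have h3 := hN.monotone (Nat.succ_le_of_lt (not_le.1 h2))
    exact absurd h.2 (not_lt.2 (h3.trans h1))
  · intro h1
    exact (hN.monotone h1).trans h.1

lemma trunc_qW (β : ℕ → ℕ) (i k : ℕ) (y : LP p) :
    trunc p {n | β n = i} (qW p β k y) = (win k i : ℂ) • trunc p {n | β n = i} y := by
  refine lp.ext (funext fun n => ?_)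
  change trunc p {n | β n = i} (qW p β k y) n = (win k i : ℂ) * trunc p {n | β n = i} y n
  by_cases h : β n = i
  · rw [trunc_of_mem _ (show n ∈ {n | β n = i} from h),
      trunc_of_mem _ (show n ∈ {n | β n = i} from h), qW_apply, h]
  · rw [trunc_of_notMem _ (show n ∉ {n | β n = i} from h),
      trunc_of_notMem _ (show n ∉ {n | β n = i} from h), mul_zero]

lemma qW_trunc (β : ℕ → ℕ) (i k : ℕ) (y : LP p) :
    qW p β k (trunc p {n | β n = i} y) = (win k i : ℂ) • trunc p {n | β n = i} y := by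
  refine lp.ext (funext fun n => ?_)
  change qW p β k (trunc p {n | β n = i} y) n = (win k i : ℂ) * trunc p {n | β n = i} y n
  rw [qW_apply]
  by_cases h : β n = i
  · rw [h]
  · rw [trunc_of_notMem _ (show n ∉ {n | β n = i} from h), mul_zero, mul_zero]

/-- the block estimate -/
lemma comm_block (hp : p ≠ ∞) (hβ : ∀ n j, β n = j ↔ n ∈ blk N j) (T : LP p →L[ℂ] LP p)
    (k i j : ℕ) (x : LP p) :
    ‖trunc p {n | β n = i} (qW p β k (T (trunc p {n | β n = j} x)) -
      T (qW p β k (trunc p {n | β n = j} x)))‖ ≤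
      ((chi k i + chi k j) * (th i j * bN N T i j)) * ‖trunc p {n | β n = j} x‖ := by
  rw [map_sub, trunc_qW, qW_trunc, map_smul, map_smul, ← sub_smul, norm_smul,
    ← Complex.ofReal_sub, Complex.norm_real, Real.norm_eq_abs]
  have h1 : ‖trunc p {n | β n = i} (T (trunc p {n | β n = j} x))‖ ≤
      bN N T i j * ‖trunc p {n | β n = j} x‖ := by
    have h2 : trunc p {n | β n = j} (trunc p {n | β n = j} x) = trunc p {n | β n = j} x := by
      have := (decLp (E := fun _ : ℕ => ℂ) hp β).P_mul j j x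
      rw [if_pos rfl] at this
      exact this
    have h3 := (trunc p (blk N i) ∘L T ∘L trunc p (blk N j)).le_opNorm (trunc p {n | β n = j} x)
    rw [← blk_eq hβ i, ← blk_eq hβ j] at h3
    change ‖trunc p {n | β n = i} (T (trunc p {n | β n = j} (trunc p {n | β n = j} x)))‖ ≤ _ at h3
    rw [h2] at h3
    refine h3.trans (le_of_eq ?_)
    unfold bN
    rw [blk_eq hβ i, blk_eq hβ j]
  calc |win k i - win k j| * ‖trunc p {n | β n = i} (T (trunc p {n | β n = j} x))‖
      ≤ ((chi k i + chi k j) * th i j) * (bN N T i j * ‖trunc p {n | β n = j} x‖) :=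
        mul_le_mul (win_diff k i j) h1 (norm_nonneg _) (mul_nonneg
          (add_nonneg (chi_nonneg _ _) (chi_nonneg _ _)) (th_nonneg _ _))
    _ = _ := by ring

/-- the sums over the windows -/
lemma sum_chi_mul {b : ℕ → ℝ} {ε : ℝ} (hb : ∀ i, 0 ≤ b i) (h : ∀ s : Finset ℕ, ∑ i ∈ s, b i ≤ ε)
    (j : ℕ) (s : Finset (ℕ × ℕ)) :
    ∑ q ∈ s, (chi q.1 q.2 + chi q.1 j) * b q.2 ≤ 4 * ε := by
  calc ∑ q ∈ s, (chi q.1 q.2 + chi q.1 j) * b q.2
      ≤ ∑ q ∈ s.image Prod.fst ×ˢ s.image Prod.snd, (chi q.1 q.2 + chi q.1 j) * b q.2 :=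
        Finset.sum_le_sum_of_subset_of_nonneg Finset.subset_product
          (fun q _ _ => mul_nonneg (add_nonneg (chi_nonneg _ _) (chi_nonneg _ _)) (hb _))
    _ = ∑ i ∈ s.image Prod.snd, ∑ k ∈ s.image Prod.fst, (chi k i + chi k j) * b i :=
        Finset.sum_product_right _ _ _
    _ ≤ ∑ i ∈ s.image Prod.snd, 4 * b i := by
        refine Finset.sum_le_sum fun i _ => ?_
        rw [← Finset.sum_mul]
        refine mul_le_mul_of_nonneg_right ?_ (hb i)
        rw [Finset.sum_add_distrib]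
        linarith [sum_chi_le (s.image Prod.fst) i, sum_chi_le (s.image Prod.fst) j]
    _ ≤ 4 * ε := by
        rw [← Finset.mul_sum]
        linarith [h (s.image Prod.snd)]

lemma trunc_tail (hN : StrictMono N) (hβ : ∀ n j, β n = j ↔ n ∈ blk N j) (l j : ℕ) (x : LP p) :
    trunc p {n | N l ≤ n} (trunc p {n | β n = j} x) =
      if l ≤ j then trunc p {n | β n = j} x else 0 := by
  refine lp.ext (funext fun n => ?_)
  by_cases hn : β n = j
  · by_cases hl : l ≤ j
    · rw [if_pos hl, trunc_of_mem _ (show n ∈ {n | N l ≤ n} from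
        (lt_iff_beta hN hβ n l).2 (hn ▸ hl))]
    · rw [if_neg hl, trunc_of_notMem _ (show n ∉ {n | N l ≤ n} from
        fun h => hl (hn ▸ (lt_iff_beta hN hβ n l).1 h))]
      rfl
  · have h1 : trunc p {n | β n = j} x n = 0 :=
      trunc_of_notMem _ (show n ∉ {n | β n = j} from hn)
    have h2 : (if l ≤ j then trunc p {n | β n = j} x else 0) n = 0 := by
      split_ifs
      · exact h1
      · rfl
    rw [h2, trunc_apply]
    split_ifs
    · exact h1
    · rfl

lemma trunc_tail' (hN : StrictMono N) (hβ : ∀ n j, β n = j ↔ n ∈ blk N j) (l j : ℕ) (x : LP p) :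
    trunc p {n | β n = j} (trunc p {n | N l ≤ n} x) =
      if l ≤ j then trunc p {n | β n = j} x else 0 := by
  refine lp.ext (funext fun n => ?_)
  by_cases hn : β n = j
  · rw [trunc_of_mem _ (show n ∈ {n | β n = j} from hn)]
    by_cases hl : l ≤ j
    · rw [if_pos hl, trunc_of_mem _ (show n ∈ {n | N l ≤ n} from
        (lt_iff_beta hN hβ n l).2 (hn ▸ hl)), trunc_of_mem _ (show n ∈ {n | β n = j} from hn)]
    · rw [if_neg hl, trunc_of_notMem _ (show n ∉ {n | N l ≤ n} from
        fun h => hl (hn ▸ (lt_iff_beta hN hβ n l).1 h))]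
      rfl
  · rw [trunc_of_notMem _ (show n ∉ {n | β n = j} from hn)]
    split_ifs
    · exact (trunc_of_notMem x (show n ∉ {n | β n = j} from hn)).symm
    · rfl

lemma trunc_split (l : ℕ) (x : LP p) :
    trunc p {n | n < l} x + trunc p {n | l ≤ n} x = x := by
  refine lp.ext (funext fun n => ?_)
  change trunc p {n | n < l} x n + trunc p {n | l ≤ n} x n = x n
  rw [trunc_apply, trunc_apply]
  by_cases h : n < l
  · rw [if_pos (show n ∈ {n | n < l} from h), if_neg (show n ∉ {n | l ≤ n} from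
      fun h' => absurd h (not_lt.2 h')), add_zero]
  · rw [if_neg (show n ∉ {n | n < l} from h), if_pos (show n ∈ {n | l ≤ n} from
      not_lt.1 h), zero_add]

lemma compact_trunc_lt {G : Type} [NormedAddCommGroup G] [NormedSpace ℂ G]
    (T : LP p →L[ℂ] G) (l : ℕ) : IsCompactOperator (⇑(T ∘L trunc p {n | n < l})) := by
  have h := compact_trunc (E := fun _ : ℕ => ℂ) T (Finset.range l)
  rw [Finset.coe_range] at h
  exact h

lemma compact_qW (hN : StrictMono N) (hβ : ∀ n j, β n = j ↔ n ∈ blk N j) (k : ℕ) :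
    IsCompactOperator (⇑(qW p β k)) := by
  have h : qW p β k = qW p β k ∘L trunc p {n | n < N ((k + 1) * (k + 1))} := by
    refine ContinuousLinearMap.ext fun x => lp.ext (funext fun n => ?_)
    change qW p β k x n = qW p β k (trunc p {n | n < N ((k + 1) * (k + 1))} x) n
    rw [qW_apply, qW_apply]
    by_cases hn : n < N ((k + 1) * (k + 1))
    · rw [trunc_of_mem _ (show n ∈ {n | n < N ((k + 1) * (k + 1))} from hn)]
    · rw [win_zero, Complex.ofReal_zero, zero_mul, zero_mul]
      have h1 := (lt_iff_beta hN hβ n _).1 (not_lt.1 hn)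
      have h2 := Nat.le_sqrt.2 h1
      omega
  rw [h]
  exact compact_trunc_lt _ _

/-- `[Q, T]` is compact -/
theorem compact_comm (hp : p ≠ ∞) (hN : StrictMono N) (hβ : ∀ n j, β n = j ↔ n ∈ blk N j)
    (T : LP p →L[ℂ] LP p) (hT : Cut1 N T) :
    EqK (QW hp β ∘L T) (infW p T ∘L QW hp β) ∧ EqK (QW' hp β ∘L infW p T) (T ∘L QW' hp β) := by
  obtain ⟨⟨C, hC1, hC2⟩, hs⟩ := hT
  have ha : ∀ i j, 0 ≤ bN N T i j := fun i j => norm_nonneg _
  have hC : ∀ i j, bN N T i j ≤ C := fun i j =>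
    ((hC1 i).1.le_tsum j (fun j _ => ha i j)).trans (hC1 i).2
  have key := fun (ε : ℝ) (hε : 0 < ε) => scalar_est ha hC hs hε
  constructor
  · refine eqK_of_forall_approx _ _ fun ε hε => ?_
    obtain ⟨l, hl1, hl2⟩ := key (ε / 4) (by positivity)
    set D := QW hp β ∘L T - infW p T ∘L QW hp β with hD
    refine ⟨D ∘L trunc p {n | n < N l}, compact_trunc_lt _ _, ?_⟩
    have h1 : D - D ∘L trunc p {n | n < N l} = D ∘L trunc p {n | N l ≤ n} := by
      refine ContinuousLinearMap.ext fun x => ?_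
      change D x - D (trunc p {n | n < N l} x) = D (trunc p {n | N l ≤ n} x)
      rw [← map_sub]
      congr 1
      rw [sub_eq_iff_eq_add', trunc_split]
    rw [h1]
    refine Dec.schur hp (decLp hp β) (Dec.sum hp (fun _ : ℕ => decLp hp β)) _
      (fun q j => (chi q.1 q.2 + chi q.1 j) *
        (if l ≤ q.2 ∨ l ≤ j then th q.2 j * bN N T q.2 j else 0)) ε hε.le ?_ ?_ ?_ ?_
    · intro q j
      refine mul_nonneg (add_nonneg (chi_nonneg _ _) (chi_nonneg _ _)) ?_
      split_ifs
      · exact mul_nonneg (th_nonneg _ _) (ha _ _)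
      · exact le_rfl
    · rintro ⟨k, i⟩ j x
      change ‖lp.single (E := fun _ : ℕ => LP p) p k (trunc p {n | β n = i} ((D (trunc p {n | N l ≤ n}
        (trunc p {n | β n = j} x))) k))‖ ≤ (chi k i + chi k j) *
        (if l ≤ i ∨ l ≤ j then th i j * bN N T i j else 0) * ‖trunc p {n | β n = j} x‖
      rw [lp.norm_single (zero_lt_one.trans_le (Fact.out : (1 : ℝ≥0∞) ≤ p)), trunc_tail hN hβ]
      by_cases hj : l ≤ j
      · rw [if_pos hj, if_pos (Or.inr hj)]
        exact comm_block hp hβ T k i j x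
      · rw [if_neg hj, map_zero]
        change ‖trunc p {n | β n = i} (0 : LP p)‖ ≤ _
        rw [map_zero, norm_zero]
        refine mul_nonneg (mul_nonneg (add_nonneg (chi_nonneg _ _) (chi_nonneg _ _)) ?_)
          (norm_nonneg _)
        split_ifs
        · exact mul_nonneg (th_nonneg _ _) (ha _ _)
        · exact le_rfl
    · rintro ⟨k, i⟩ s
      change ∑ j ∈ s, (chi k i + chi k j) *
        (if l ≤ i ∨ l ≤ j then th i j * bN N T i j else 0) ≤ ε
      refine (Finset.sum_le_sum fun j _ => mul_le_mul_of_nonneg_right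
        (show chi k i + chi k j ≤ 2 by linarith [chi_le_one k i, chi_le_one k j]) (by
          split_ifs
          · exact mul_nonneg (th_nonneg _ _) (ha _ _)
          · exact le_rfl)).trans ?_
      rw [← Finset.mul_sum]
      linarith [hl1 i s]
    · intro j s
      have h2 := sum_chi_mul (b := fun i => if l ≤ i ∨ l ≤ j then th i j * bN N T i j else 0)
        (fun i => by
          split_ifs
          · exact mul_nonneg (th_nonneg _ _) (ha _ _)
          · exact le_rfl) (hl2 j) j s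
      refine h2.trans ?_
      linarith
  · refine eqK_of_forall_approx _ _ fun ε hε => ?_
    obtain ⟨l, hl1, hl2⟩ := key (ε / 4) (by positivity)
    set D := QW' hp β ∘L infW p T - T ∘L QW' hp β with hD
    refine ⟨trunc p {n | n < N l} ∘L D, ?_, ?_⟩
    · have h := compact_trunc_lt (ContinuousLinearMap.id ℂ (LP p)) (N l)
      rw [ContinuousLinearMap.id_comp] at h
      exact h.comp_clm D
    have h1 : D - trunc p {n | n < N l} ∘L D = trunc p {n | N l ≤ n} ∘L D := by
      refine ContinuousLinearMap.ext fun x => ?_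
      change D x - trunc p {n | n < N l} (D x) = trunc p {n | N l ≤ n} (D x)
      rw [sub_eq_iff_eq_add', trunc_split]
    rw [h1]
    refine Dec.schur hp (Dec.sum hp (fun _ : ℕ => decLp hp β)) (decLp hp β) _
      (fun i q => (chi q.1 q.2 + chi q.1 i) *
        (if l ≤ i ∨ l ≤ q.2 then th i q.2 * bN N T i q.2 else 0)) ε hε.le ?_ ?_ ?_ ?_
    · intro i q
      refine mul_nonneg (add_nonneg (chi_nonneg _ _) (chi_nonneg _ _)) ?_
      split_ifs
      · exact mul_nonneg (th_nonneg _ _) (ha _ _)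
      · exact le_rfl
    · rintro i ⟨k, j⟩ w
      change ‖trunc p {n | β n = i} (trunc p {n | N l ≤ n} (D (lp.single (E := fun _ : ℕ => LP p) p k
        (trunc p {n | β n = j} (w k)))))‖ ≤ (chi k j + chi k i) *
        (if l ≤ i ∨ l ≤ j then th i j * bN N T i j else 0) *
          ‖lp.single (E := fun _ : ℕ => LP p) p k (trunc p {n | β n = j} (w k))‖
      rw [lp.norm_single (zero_lt_one.trans_le (Fact.out : (1 : ℝ≥0∞) ≤ p)), trunc_tail' hN hβ]
      by_cases hi : l ≤ i
      · rw [if_pos hi, if_pos (Or.inl hi)]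
        have h2 : D (lp.single p k (trunc p {n | β n = j} (w k))) =
            qW p β k (T (trunc p {n | β n = j} (w k))) -
              T (qW p β k (trunc p {n | β n = j} (w k))) := by
          change QW' hp β (infW p T (lp.single p k (trunc p {n | β n = j} (w k)))) -
            T (QW' hp β (lp.single p k (trunc p {n | β n = j} (w k)))) = _
          rw [infW_single, QW'_single, QW'_single]
        rw [h2, add_comm (chi k j)]
        exact comm_block hp hβ T k i j (w k)
      · rw [if_neg hi, norm_zero]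
        refine mul_nonneg (mul_nonneg (add_nonneg (chi_nonneg _ _) (chi_nonneg _ _)) ?_)
          (norm_nonneg _)
        split_ifs
        · exact mul_nonneg (th_nonneg _ _) (ha _ _)
        · exact le_rfl
    · intro i s
      have h2 := sum_chi_mul (b := fun j => if l ≤ i ∨ l ≤ j then th i j * bN N T i j else 0)
        (fun j => by
          split_ifs
          · exact mul_nonneg (th_nonneg _ _) (ha _ _)
          · exact le_rfl) (hl1 i) i s
      refine h2.trans ?_
      linarith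
    · rintro ⟨k, j⟩ s
      change ∑ i ∈ s, (chi k j + chi k i) *
        (if l ≤ i ∨ l ≤ j then th i j * bN N T i j else 0) ≤ ε
      refine (Finset.sum_le_sum fun i _ => mul_le_mul_of_nonneg_right
        (show chi k j + chi k i ≤ 2 by linarith [chi_le_one k i, chi_le_one k j]) (by
          split_ifs
          · exact mul_nonneg (th_nonneg _ _) (ha _ _)
          · exact le_rfl)).trans ?_
      rw [← Finset.mul_sum]
      linarith [hl2 j s]

end

end Pool.Agent.H30.BDFP
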