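import Pool.Agent.H30.BDFP.Fib

attribute [local instance] Pool.Agent.H33.BDFP.NV.instNACG Pool.Agent.H33.BDFP.NV.instModule
  Pool.Agent.H33.BDFP.NV.instNormedSpace Pool.Agent.H33.BDFP.NV.instFD
  Pool.Agent.H33.BDFP.NV.instComplete

/-!
Module DIL of the project BDFP, final part.
-/

open scoped ENNReal NNReal

noncomputable section

namespace Pool.Agent.H30.BDFP

open Pool.Agent.H33.BDFP Pool.Agent.H74.BDFP

section

variable {p : ℝ≥0∞} [Fact (1 ≤ p)] {M : Set ℂ} [CompactSpace M]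

/-- the cut sequence for a countable family of operators -/
lemma exists_cuts (hC : CutStmt) (hS : CutSeqStmt) (hB : BlkStmt) (hp1 : 1 < p) (hp : p ≠ ∞)
    (T : ℕ → (LP p →L[ℂ] LP p)) :
    ∃ N : ℕ → ℕ, StrictMono N ∧ N 0 = 0 ∧ ∀ m, Cut1 N (T m) := by
  have h1 := fun m => hC p p hp1 hp hp (fun _ => ℂ) (fun _ => ℂ) (T m)
  obtain ⟨N, hN, hN0, hN1⟩ := hS ℕ
    (fun m n N => ‖trunc p {i | N ≤ i} ∘L T m ∘L trunc p {i | i < n}‖ +
      ‖trunc p {i | i < n} ∘L T m ∘L trunc p {i | N ≤ i}‖) (fun _ _ => 0)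
    (fun m n => by simpa using ((h1 m).1 n).add ((h1 m).2.1 n)) (fun m => tendsto_const_nhds)
  refine ⟨N, hN, hN0, fun m => ?_⟩
  obtain ⟨j₀, hj₀⟩ := hN1 m
  refine (hB p p (fun _ => ℂ) (fun _ => ℂ) (T m) N j₀ hN hN0 ?_ ?_).1
  · intro j hj
    exact (le_add_of_nonneg_right (norm_nonneg _)).trans (hj₀ j hj).1
  · intro j hj
    exact (le_add_of_nonneg_left (norm_nonneg _)).trans (hj₀ j hj).1

lemma infW_sub (S T : LP p →L[ℂ] LP p) : infW p (S - T) = infW p S - infW p T := by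
  refine ContinuousLinearMap.ext fun x => lp.ext (funext fun n => ?_)
  rfl

/-- the windows almost commute with a representation -/
lemma exists_windows (hC : CutStmt) (hS : CutSeqStmt) (hB : BlkStmt) (hp1 : 1 < p) (hp : p ≠ ∞)
    (ρ : Rep M (LP p)) : ∃ (q : ℕ → (LP p →L[ℂ] LP p)) (Q : LP p →L[ℂ] LW p)
      (Q' : LW p →L[ℂ] LP p), (∀ k, IsCompactOperator (⇑(q k))) ∧ (∀ x k, Q x k = q k x) ∧
      (∀ k x, Q' (lp.single p k x) = q k x) ∧ Q' ∘L Q = ContinuousLinearMap.id ℂ (LP p) ∧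
      (∀ a, EqK (Q ∘L ρ.hom a) (infW p (ρ.hom a) ∘L Q)) ∧
      (∀ a, EqK (Q' ∘L infW p (ρ.hom a)) (ρ.hom a ∘L Q')) := by
  obtain ⟨C, hCρ⟩ := ρ.bdd
  have hC' : ∀ a, ‖ρ.hom a‖ ≤ |C| * ‖a‖ := fun a =>
    (hCρ a).trans (mul_le_mul_of_nonneg_right (le_abs_self C) (norm_nonneg _))
  let d : ℕ → C(M, ℂ) := TopologicalSpace.denseSeq C(M, ℂ)
  have hd : DenseRange d := TopologicalSpace.denseRange_denseSeq _
  obtain ⟨N, hN, hN0, hN1⟩ := exists_cuts hC hS hB hp1 hp (fun m => ρ.hom (d m))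
  obtain ⟨β, hβ⟩ := exists_beta N hN hN0
  refine ⟨qW p β, QW hp β, QW' hp β, compact_qW hN hβ, QW_apply hp β, QW'_single hp β,
    QW'_QW hp β, fun a => ?_, fun a => ?_⟩
  · refine eqK_of_forall_approx _ _ fun ε hε => ?_
    set K : ℝ := 2 * ‖QW hp β‖ * |C| + 1 with hK
    have hK0 : 0 < K := by positivity
    obtain ⟨m, hm⟩ := hd.exists_dist_lt a (show 0 < ε / K by positivity)
    refine ⟨QW hp β ∘L ρ.hom (d m) - infW p (ρ.hom (d m)) ∘L QW hp β,
      (compact_comm hp hN hβ _ (hN1 m)).1, ?_⟩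
    have h1 : QW hp β ∘L ρ.hom a - infW p (ρ.hom a) ∘L QW hp β -
        (QW hp β ∘L ρ.hom (d m) - infW p (ρ.hom (d m)) ∘L QW hp β) =
        QW hp β ∘L ρ.hom (a - d m) - infW p (ρ.hom (a - d m)) ∘L QW hp β := by
      rw [map_sub, infW_sub, ContinuousLinearMap.comp_sub, ContinuousLinearMap.sub_comp]
      abel
    rw [h1]
    have h2 : ‖ρ.hom (a - d m)‖ ≤ |C| * (ε / K) := by
      refine (hC' _).trans (mul_le_mul_of_nonneg_left ?_ (abs_nonneg _))
      rw [← dist_eq_norm]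
      exact hm.le
    calc ‖QW hp β ∘L ρ.hom (a - d m) - infW p (ρ.hom (a - d m)) ∘L QW hp β‖
        ≤ ‖QW hp β‖ * ‖ρ.hom (a - d m)‖ + ‖ρ.hom (a - d m)‖ * ‖QW hp β‖ :=
          (norm_sub_le _ _).trans (add_le_add (ContinuousLinearMap.opNorm_comp_le _ _)
            ((ContinuousLinearMap.opNorm_comp_le _ _).trans
              (mul_le_mul_of_nonneg_right (norm_infW_le _) (norm_nonneg _))))
      _ ≤ 2 * ‖QW hp β‖ * (|C| * (ε / K)) := by
          nlinarith [norm_nonneg (QW hp β)]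
      _ = (K - 1) * (ε / K) := by rw [hK]; ring
      _ ≤ K * (ε / K) := mul_le_mul_of_nonneg_right (by linarith) (by positivity)
      _ = ε := by field_simp
  · refine eqK_of_forall_approx _ _ fun ε hε => ?_
    set K : ℝ := 2 * ‖QW' hp β‖ * |C| + 1 with hK
    have hK0 : 0 < K := by positivity
    obtain ⟨m, hm⟩ := hd.exists_dist_lt a (show 0 < ε / K by positivity)
    refine ⟨QW' hp β ∘L infW p (ρ.hom (d m)) - ρ.hom (d m) ∘L QW' hp β,
      (compact_comm hp hN hβ _ (hN1 m)).2, ?_⟩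
    have h1 : QW' hp β ∘L infW p (ρ.hom a) - ρ.hom a ∘L QW' hp β -
        (QW' hp β ∘L infW p (ρ.hom (d m)) - ρ.hom (d m) ∘L QW' hp β) =
        QW' hp β ∘L infW p (ρ.hom (a - d m)) - ρ.hom (a - d m) ∘L QW' hp β := by
      rw [map_sub, infW_sub, ContinuousLinearMap.comp_sub, ContinuousLinearMap.sub_comp]
      abel
    rw [h1]
    have h2 : ‖ρ.hom (a - d m)‖ ≤ |C| * (ε / K) := by
      refine (hC' _).trans (mul_le_mul_of_nonneg_left ?_ (abs_nonneg _))
      rw [← dist_eq_norm]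
      exact hm.le
    calc ‖QW' hp β ∘L infW p (ρ.hom (a - d m)) - ρ.hom (a - d m) ∘L QW' hp β‖
        ≤ ‖QW' hp β‖ * ‖ρ.hom (a - d m)‖ + ‖ρ.hom (a - d m)‖ * ‖QW' hp β‖ :=
          (norm_sub_le _ _).trans (add_le_add ((ContinuousLinearMap.opNorm_comp_le _ _).trans
              (mul_le_mul_of_nonneg_left (norm_infW_le _) (norm_nonneg _)))
            (ContinuousLinearMap.opNorm_comp_le _ _))
      _ ≤ 2 * ‖QW' hp β‖ * (|C| * (ε / K)) := by
          nlinarith [norm_nonneg (QW' hp β)]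
      _ = (K - 1) * (ε / K) := by rw [hK]; ring
      _ ≤ K * (ε / K) := mul_le_mul_of_nonneg_right (by linarith) (by positivity)
      _ = ε := by field_simp

/-- the functions `h_i (a - a(v_i))` -/
def gg {m : ℕ} (h : Fin m → C(M, ℂ)) (v : Fin m → M) (a : C(M, ℂ)) (i : Fin m) : C(M, ℂ) :=
  h i * a - (a (v i)) • h i

omit [CompactSpace M] in
lemma gg_bound {m : ℕ} {h : Fin m → C(M, ℂ)} {v : Fin m → M} {δ : ℝ}
    (h2 : ∀ z, ∑ i, ‖h i z‖ ≤ 2) (hv : ∀ z i, h i z ≠ 0 → dist z (v i) ≤ δ) {a : C(M, ℂ)} {ε : ℝ}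
    (ha : ∀ z w, dist z w ≤ δ → ‖a z - a w‖ ≤ ε) (hε : 0 ≤ ε) (z : M) :
    ∑ i, ‖gg h v a i z‖ ≤ 2 * ε := by
  calc ∑ i, ‖gg h v a i z‖ ≤ ∑ i, ‖h i z‖ * ε := by
        refine Finset.sum_le_sum fun i _ => ?_
        have h1 : gg h v a i z = h i z * (a z - a (v i)) := by
          change h i z * a z - a (v i) * h i z = _
          ring
        rw [h1, norm_mul]
        by_cases hz : h i z = 0
        · rw [hz, norm_zero, zero_mul, zero_mul]
        · exact mul_le_mul_of_nonneg_left (ha _ _ (hv z i hz)) (norm_nonneg _)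
    _ ≤ 2 * ε := by
        rw [← Finset.sum_mul]
        exact mul_le_mul_of_nonneg_right (h2 z) hε

end

/-- Module DIL. -/
theorem dil (hP : PartStmt) (hD : Dil1Stmt) (hC : CutStmt) (hS : CutSeqStmt) (hB : BlkStmt) :
    DilStmt := by
  intro p _ hp2 hp M _ ρ u
  have hp1 : 1 < p := lt_of_lt_of_le (by norm_num) hp2
  obtain ⟨C₀, hC₀⟩ := ρ.bdd
  have hCρ : ∀ a, ‖ρ.hom a‖ ≤ |C₀| * ‖a‖ := fun a =>
    (hC₀ a).trans (mul_le_mul_of_nonneg_right (le_abs_self C₀) (norm_nonneg _))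
  obtain ⟨K, hK0, hK⟩ := hD p hp2 hp
  -- the partitions
  have hδ : ∀ k : ℕ, (0 : ℝ) < 1 / ((k : ℝ) + 1) := fun k => by positivity
  choose m h v hsq h2 h1 hv using fun k : ℕ => hP M (1 / ((k : ℝ) + 1)) (hδ k)
  -- the square functions
  choose J R hJn hRn hJ hR using fun k : ℕ =>
    hK M ρ |C₀| (abs_nonneg _) hCρ (m k) (h k) 2 (by norm_num) (h2 k)
  set B : ℝ := K * |C₀| * 2 with hBdef
  have hB0 : 0 ≤ B := by positivity
  -- `R k ∘ J k = 1`
  let ev : ∀ (k : ℕ), Fin (m k) → (ZP (fun _ => m k) p →L[ℂ] LP p) := fun k i =>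
    lp.mapCLM p (fun _ : ℕ => (EuclideanSpace.proj i : EuclideanSpace ℂ (Fin (m k)) →L[ℂ] ℂ))
      (norm_nonneg (EuclideanSpace.proj i : EuclideanSpace ℂ (Fin (m k)) →L[ℂ] ℂ))
      (fun _ => le_rfl)
  have hev : ∀ k i y n, ev k i y n = y n i := fun k i y n => rfl
  have hRf : ∀ k, R k = ∑ i, ρ.hom (h k i) ∘L ev k i := by
    intro k
    refine zp_ext hp _ _ fun n i c => ?_
    rw [hR, sum_apply, Finset.sum_eq_single i]
    · change ρ.hom (h k i) _ = ρ.hom (h k i) (ev k i _)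
      congr 1
      refine lp.ext (funext fun l => ?_)
      rw [hev]
      by_cases hl : l = n
      · subst hl
        rw [lp.single_apply_self, lp.single_apply_self, PiLp.single_apply, if_pos rfl]
      · rw [lp.single_apply_ne (E := fun _ : ℕ => ℂ) p n c hl,
          lp.single_apply_ne (E := fun _ : ℕ => EuclideanSpace ℂ (Fin (m k))) p n _ hl]
        rfl
    · intro j _ hj
      change ρ.hom (h k j) (ev k j _) = 0
      have h0 : ev k j (lp.single p n (EuclideanSpace.single i c)) = 0 := by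
        refine lp.ext (funext fun l => ?_)
        rw [hev]
        by_cases hl : l = n
        · subst hl
          rw [lp.single_apply_self, PiLp.single_apply, if_neg hj]
          rfl
        · rw [lp.single_apply_ne (E := fun _ : ℕ => EuclideanSpace ℂ (Fin (m k))) p n _ hl]
          rfl
      rw [h0, map_zero]
    · intro h
      exact absurd (Finset.mem_univ i) h
  have hRJ : ∀ k x, R k (J k x) = x := by
    intro k x
    rw [hRf, sum_apply]
    have h3 : ∀ i, ev k i (J k x) = ρ.hom (h k i) x := fun i =>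
      lp.ext (funext fun n => by rw [hev, hJ])
    have h4 : ∀ i, (ρ.hom (h k i) ∘L ev k i) (J k x) = ρ.hom (h k i * h k i) x := fun i => by
      change ρ.hom (h k i) (ev k i (J k x)) = _
      rw [h3, map_mul]
      rfl
    rw [Finset.sum_congr rfl fun i _ => h4 i]
    have h5 : ∑ i, ρ.hom (h k i * h k i) x = (∑ i, ρ.hom (h k i * h k i)) x :=
      (sum_apply _ _ _).symm
    rw [h5, ← map_sum, hsq, map_one]
    rfl
  -- the windows
  obtain ⟨q, Q, Q', hq, hQ, hQ', hQQ, hQa, hQa'⟩ := exists_windows hC hS hB hp1 hp ρ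
  let J' : LW p →L[ℂ] ZW m p := lp.mapCLM p J hB0 hJn
  let R' : ZW m p →L[ℂ] LW p := lp.mapCLM p R hB0 hRn
  have hRJ' : R' ∘L J' = ContinuousLinearMap.id ℂ (LW p) := by
    refine ContinuousLinearMap.ext fun w => lp.ext (funext fun k => ?_)
    exact hRJ k (w k)
  -- the errors
  let τ := fun k => diagRep (r := fun _ => m k) (fun _ => v k) p
  have hτ : ∀ k a, ‖(τ k).hom a‖ ≤ ‖a‖ := fun k a => diagRep_contr _ a
  have key : ∀ (a : C(M, ℂ)) (k : ℕ) (S : ℝ), 0 ≤ S → (∀ z, ∑ i, ‖gg (h k) (v k) a i z‖ ≤ S) →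
      ‖J k ∘L ρ.hom a - (τ k).hom a ∘L J k‖ ≤ K * |C₀| * S ∧
      ‖R k ∘L (τ k).hom a - ρ.hom a ∘L R k‖ ≤ K * |C₀| * S := by
    intro a k S hS0 hS1
    obtain ⟨J₁, R₁, hJ₁n, hR₁n, hJ₁, hR₁⟩ :=
      hK M ρ |C₀| (abs_nonneg _) hCρ (m k) (gg (h k) (v k) a) S hS0 hS1
    have e1 : J k ∘L ρ.hom a - (τ k).hom a ∘L J k = J₁ := by
      refine ContinuousLinearMap.ext fun x => lp.ext (funext fun n => ?_)
      ext i
      rw [hJ₁]
      change J k (ρ.hom a x) n i - (τ k).hom a (J k x) n i = _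
      rw [hJ]
      change _ - a (v k i) * (J k x n i) = _
      rw [hJ]
      have e2 : ρ.hom (gg (h k) (v k) a i) x =
          ρ.hom (h k i) (ρ.hom a x) - a (v k i) • ρ.hom (h k i) x := by
        unfold gg
        rw [map_sub, map_mul, map_smul]
        rfl
      rw [e2]
      rfl
    have e3 : R k ∘L (τ k).hom a - ρ.hom a ∘L R k = -R₁ := by
      refine zp_ext hp _ _ fun n i c => ?_
      rw [neg_apply, hR₁]
      change R k ((τ k).hom a (lp.single p n (EuclideanSpace.single i c))) -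
        ρ.hom a (R k (lp.single p n (EuclideanSpace.single i c))) = _
      have e4 : (τ k).hom a (lp.single p n (EuclideanSpace.single i c)) =
          a (v k i) • lp.single p n (EuclideanSpace.single i c) := by
        refine lp.ext (funext fun l => ?_)
        ext j
        change (τ k).hom a (lp.single p n (EuclideanSpace.single i c)) l j =
          a (v k i) * (lp.single (E := fun _ : ℕ => EuclideanSpace ℂ (Fin (m k))) p n
            (EuclideanSpace.single i c) l j)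
        have e5 : (τ k).hom a (lp.single p n (EuclideanSpace.single i c)) l j =
          a (v k j) * (lp.single (E := fun _ : ℕ => EuclideanSpace ℂ (Fin (m k))) p n
            (EuclideanSpace.single i c) l j) := rfl
        rw [e5]
        by_cases hl : l = n
        · subst hl
          rw [lp.single_apply_self, PiLp.single_apply]
          by_cases hj : j = i
          · rw [hj]
          · rw [if_neg hj, mul_zero, mul_zero]
        · rw [lp.single_apply_ne (E := fun _ : ℕ => EuclideanSpace ℂ (Fin (m k))) p n _ hl]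
          change a (v k j) * 0 = a (v k i) * 0
          rw [mul_zero, mul_zero]
      rw [e4, map_smul, hR]
      have e2 : ρ.hom (gg (h k) (v k) a i) (lp.single p n c) =
          ρ.hom a (ρ.hom (h k i) (lp.single p n c)) - a (v k i) • ρ.hom (h k i)
            (lp.single p n c) := by
        unfold gg
        rw [map_sub, mul_comm, map_mul, map_smul]
        rfl
      rw [e2, neg_sub]
    refine ⟨e1 ▸ hJ₁n, ?_⟩
    rw [e3, norm_neg]
    exact hR₁n
  have hsmall : ∀ (a : C(M, ℂ)) (ε : ℝ), 0 < ε → ∃ l : ℕ, ∀ k, l ≤ k →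
      ‖J k ∘L ρ.hom a - (τ k).hom a ∘L J k‖ ≤ ε ∧ ‖R k ∘L (τ k).hom a - ρ.hom a ∘L R k‖ ≤ ε := by
    intro a ε hε
    set L : ℝ := K * |C₀| * 2 + 1 with hL
    have hL0 : 0 < L := by positivity
    have huc := CompactSpace.uniformContinuous_of_continuous a.continuous
    obtain ⟨δ, hδ0, hδ1⟩ := Metric.uniformContinuous_iff.1 huc (ε / L) (by positivity)
    obtain ⟨l, hl⟩ := exists_nat_one_div_lt hδ0
    refine ⟨l, fun k hk => ?_⟩
    have hkδ : 1 / ((k : ℝ) + 1) < δ := by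
      refine lt_of_le_of_lt ?_ hl
      apply one_div_le_one_div_of_le (by positivity)
      have : (l : ℝ) ≤ k := by exact_mod_cast hk
      linarith
    have hS1 := gg_bound (a := a) (ε := ε / L) (h2 k) (hv k) (fun z w hzw => by
      rw [← dist_eq_norm]
      exact (hδ1 (lt_of_le_of_lt hzw hkδ)).le) (by positivity)
    have h3 := key a k (2 * (ε / L)) (by positivity) hS1
    have h4 : K * |C₀| * (2 * (ε / L)) ≤ ε := by
      have : K * |C₀| * (2 * (ε / L)) = (L - 1) * (ε / L) := by rw [hL]; ring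
      rw [this]
      calc (L - 1) * (ε / L) ≤ L * (ε / L) :=
            mul_le_mul_of_nonneg_right (by linarith) (by positivity)
        _ = ε := by field_simp
    exact ⟨h3.1.trans h4, h3.2.trans h4⟩
  have hbd : ∀ (a : C(M, ℂ)) (k : ℕ), ‖J k ∘L ρ.hom a - (τ k).hom a ∘L J k‖ ≤
      B * ‖ρ.hom a‖ + ‖a‖ * B ∧ ‖R k ∘L (τ k).hom a - ρ.hom a ∘L R k‖ ≤
      B * ‖a‖ + ‖ρ.hom a‖ * B := by
    intro a k
    constructor
    · refine (norm_sub_le _ _).trans (add_le_add ?_ ?_)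
      · exact (ContinuousLinearMap.opNorm_comp_le _ _).trans
          (mul_le_mul_of_nonneg_right (hJn k) (norm_nonneg _))
      · exact (ContinuousLinearMap.opNorm_comp_le _ _).trans
          (mul_le_mul (hτ k a) (hJn k) (norm_nonneg _) (norm_nonneg _))
    · refine (norm_sub_le _ _).trans (add_le_add ?_ ?_)
      · exact (ContinuousLinearMap.opNorm_comp_le _ _).trans
          (mul_le_mul (hRn k) (hτ k a) (norm_nonneg _) hB0)
      · exact (ContinuousLinearMap.opNorm_comp_le _ _).trans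
          (mul_le_mul_of_nonneg_left (hRn k) (norm_nonneg _))
  have hJc : ∀ a, EqK (J' ∘L infW p (ρ.hom a) ∘L Q) ((tauW m v p).hom a ∘L J' ∘L Q) := by
    intro a
    have h3 := compact_tail₁ q hq Q hQ (fun k => J k ∘L ρ.hom a - (τ k).hom a ∘L J k)
      (K := B * ‖ρ.hom a‖ + ‖a‖ * B) (by positivity) (fun k => (hbd a k).1)
      (fun ε hε => by
        obtain ⟨l, hl⟩ := hsmall a ε hε
        exact ⟨l, fun k hk => (hl k hk).1⟩)
    unfold EqK
    convert! h3 using 1
  have hRc : ∀ a, EqK (Q' ∘L R' ∘L (tauW m v p).hom a) (Q' ∘L infW p (ρ.hom a) ∘L R') := by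
    intro a
    have h3 := compact_tail₂ q hq Q' hQ' (fun k => R k ∘L (τ k).hom a - ρ.hom a ∘L R k)
      (K := B * ‖a‖ + ‖ρ.hom a‖ * B) (by positivity) (fun k => (hbd a k).2)
      (fun ε hε => by
        obtain ⟨l, hl⟩ := hsmall a ε hε
        exact ⟨l, fun k hk => (hl k hk).2⟩)
    unfold EqK
    have h4 : Q' ∘L R' ∘L (tauW m v p).hom a - Q' ∘L infW p (ρ.hom a) ∘L R' =
        Q' ∘L (lp.mapCLM p (fun k => R k ∘L (τ k).hom a - ρ.hom a ∘L R k)
          (show 0 ≤ B * ‖a‖ + ‖ρ.hom a‖ * B by positivity) (fun k => (hbd a k).2)) := by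
      rw [← ContinuousLinearMap.comp_sub]
      rfl
    rw [h4]
    exact h3
  -- the result
  refine ⟨rr m, vv m v u, i0 m, iotaW m hp ∘L J' ∘L Q, Q' ∘L R' ∘L piW m hp,
    vv_i0 m v u, fun x n => iota_i0 m hp _ n, fun n c => ?_, ?_, fun a => ?_, fun a => ?_⟩
  · change Q' (R' (piW m hp _)) = 0
    rw [pi_i0, map_zero, map_zero]
  · refine ContinuousLinearMap.ext fun x => ?_
    have e1 : piW m hp (iotaW m hp (J' (Q x))) = J' (Q x) :=
      DFunLike.congr_fun (piW_iotaW m hp) (J' (Q x))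
    have e2 : R' (J' (Q x)) = Q x := DFunLike.congr_fun hRJ' (Q x)
    change Q' (R' (piW m hp (iotaW m hp (J' (Q x))))) = x
    rw [e1, e2]
    exact DFunLike.congr_fun hQQ x
  · have s1 := (hQa a).comp_left (iotaW m hp ∘L J')
    have s2 := (hJc a).comp_left (iotaW m hp)
    have e1 : iotaW m hp ∘L (tauW m v p).hom a ∘L J' ∘L Q =
        (diagRep (vv m v u) p).hom a ∘L iotaW m hp ∘L J' ∘L Q := by
      rw [← ContinuousLinearMap.comp_assoc, iota_tau m hp v u a,
        ContinuousLinearMap.comp_assoc]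
    exact (s1.trans s2).trans (EqK.of_eq e1)
  · have e1 : Q' ∘L R' ∘L piW m hp ∘L (diagRep (vv m v u) p).hom a =
        Q' ∘L R' ∘L (tauW m v p).hom a ∘L piW m hp := by
      rw [pi_tau m hp v u a]
    have s1 := (hRc a).comp_right (piW m hp)
    have s2 := (hQa' a).comp_right (R' ∘L piW m hp)
    exact ((EqK.of_eq e1).trans s1).trans s2

end Pool.Agent.H30.BDFP
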