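import Pool.Agent.H33.BDFP.Ess
import Pool.Agent.H74.BDFP.SCH

attribute [local instance] Pool.Agent.H33.BDFP.NV.instNACG Pool.Agent.H33.BDFP.NV.instModule
  Pool.Agent.H33.BDFP.NV.instNormedSpace Pool.Agent.H33.BDFP.NV.instFD
  Pool.Agent.H33.BDFP.NV.instComplete

/-!
Module DIL of the project BDFP, part 1: `l^p` decompositions and an abstract Schur test.
-/

open scoped ENNReal NNReal

noncomputable section

namespace Pool.Agent.H30.BDFP

open Pool.Agent.H33.BDFP Pool.Agent.H74.BDFP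

/-- an `l^p` decomposition of a normed space -/
structure Dec (p : ℝ≥0∞) (κ : Type) [DecidableEq κ] (X : Type) [NormedAddCommGroup X]
    [NormedSpace ℂ X] where
  P : κ → X →L[ℂ] X
  P_mul : ∀ i j x, P i (P j x) = if i = j then P j x else 0
  sum_le : ∀ x (s : Finset κ), ∑ j ∈ s, ‖P j x‖ ^ p.toReal ≤ ‖x‖ ^ p.toReal
  norm_le : ∀ x C, 0 ≤ C → (∀ s : Finset κ, ∑ j ∈ s, ‖P j x‖ ^ p.toReal ≤ C ^ p.toReal) →
    ‖x‖ ≤ C

section

set_option linter.unusedSectionVars false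

variable {p : ℝ≥0∞} [Fact (1 ≤ p)] {κ κ' : Type} [DecidableEq κ] [DecidableEq κ']
  {X Y : Type} [NormedAddCommGroup X] [NormedSpace ℂ X]
  [NormedAddCommGroup Y] [NormedSpace ℂ Y]

lemma Dec.summable (D : Dec p κ X) (x : X) : Summable (fun j => ‖D.P j x‖ ^ p.toReal) :=
  summable_of_sum_le (fun _ => Real.rpow_nonneg (norm_nonneg _) _) (D.sum_le x)

lemma Dec.P_compl (D : Dec p κ X) (x : X) (F : Finset κ) (i : κ) :
    D.P i (∑ j ∈ F, D.P j x - x) = if i ∈ F then 0 else - D.P i x := by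
  rw [map_sub, map_sum]
  simp only [D.P_mul]
  rw [Finset.sum_ite_eq]
  split_ifs
  · rw [sub_self]
  · rw [zero_sub]

lemma Dec.hasSum (hp : p ≠ ∞) (D : Dec p κ X) (x : X) : HasSum (fun j => D.P j x) x := by
  have hP0 := toReal_pos' (p := p) hp
  have hs := D.summable x
  rw [summable_iff_vanishing_norm] at hs
  rw [HasSum, SummationFilter.unconditional_filter, Metric.tendsto_atTop]
  intro ε hε
  obtain ⟨s, hs⟩ := hs ((ε / 2) ^ p.toReal) (by positivity)
  refine ⟨s, fun F hF => ?_⟩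
  rw [dist_eq_norm]
  refine lt_of_le_of_lt (D.norm_le _ (ε / 2) (by positivity) fun t => ?_) (half_lt_self hε)
  have h1 : ∑ j ∈ t, ‖D.P j (∑ j ∈ F, D.P j x - x)‖ ^ p.toReal =
      ∑ j ∈ t \ F, ‖D.P j x‖ ^ p.toReal := by
    rw [Finset.sdiff_eq_filter, Finset.sum_filter]
    refine Finset.sum_congr rfl fun j _ => ?_
    rw [D.P_compl]
    by_cases hj : j ∈ F
    · rw [if_pos hj, if_neg (fun h => h hj), norm_zero, Real.zero_rpow hP0.ne']
    · rw [if_neg hj, if_pos hj, norm_neg]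
  rw [h1]
  have h2 := hs (t \ F) (Finset.disjoint_left.2 fun j hj hj' =>
    (Finset.mem_sdiff.1 hj).2 (hF hj'))
  exact (le_abs_self _).trans h2.le

/-- abstract Schur test -/
lemma Dec.schur (hp : p ≠ ∞) (DX : Dec p κ X) (DY : Dec p κ' Y) (T : X →L[ℂ] Y)
    (b : κ' → κ → ℝ) (C : ℝ) (hC : 0 ≤ C) (hb : ∀ i j, 0 ≤ b i j)
    (hT : ∀ i j x, ‖DY.P i (T (DX.P j x))‖ ≤ b i j * ‖DX.P j x‖)
    (hr : ∀ i (s : Finset κ), ∑ j ∈ s, b i j ≤ C)
    (hc : ∀ j (s : Finset κ'), ∑ i ∈ s, b i j ≤ C) : ‖T‖ ≤ C := by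
  have hP0 := toReal_pos' (p := p) hp
  have hr' : ∀ i, Summable (b i) ∧ ∑' j, b i j ≤ C := fun i =>
    have h := summable_of_sum_le (hb i) (hr i)
    ⟨h, h.tsum_le_of_sum_le (hr i)⟩
  have hc' : ∀ j, Summable (fun i => b i j) ∧ ∑' i, b i j ≤ C := fun j =>
    have h := summable_of_sum_le (fun i => hb i j) (hc j)
    ⟨h, h.tsum_le_of_sum_le (hc j)⟩
  refine ContinuousLinearMap.opNorm_le_bound _ hC fun x => ?_
  let x' : lp (fun _ : κ => ℂ) p := ⟨fun j => ((‖DX.P j x‖ : ℝ) : ℂ), memℓp_gen (by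
    simpa only [Complex.norm_real, norm_norm] using DX.summable x)⟩
  have hx'j : ∀ j, ‖x' j‖ = ‖DX.P j x‖ := fun j => by
    change ‖((‖DX.P j x‖ : ℝ) : ℂ)‖ = _
    rw [Complex.norm_real, norm_norm]
  have hx' : ‖x'‖ ≤ ‖x‖ := by
    refine lp.norm_le_of_forall_sum_le hP0 (norm_nonneg _) fun s => ?_
    simp only [hx'j]
    exact DX.sum_le x s
  refine DY.norm_le _ _ (mul_nonneg hC (norm_nonneg _)) fun s => ?_
  have hx0 : ∀ j, ‖x' j‖ ≤ ‖x'‖ := fun j =>
    lp.norm_apply_le_norm (zero_lt_one.trans_le (Fact.out : (1 : ℝ≥0∞) ≤ p)).ne' x' j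
  have hs1 : ∀ i, Summable (fun j => b i j * ‖x' j‖) := fun i =>
    Summable.of_nonneg_of_le (fun j => mul_nonneg (hb i j) (norm_nonneg _))
      (fun j => mul_le_mul_of_nonneg_left (hx0 j) (hb i j)) ((hr' i).1.mul_right ‖x'‖)
  have h1 : ∀ i, ‖DY.P i (T x)‖ ≤ ∑' j, b i j * ‖x' j‖ := fun i => by
    have h2 : HasSum (fun j => DY.P i (T (DX.P j x))) (DY.P i (T x)) :=
      ((DX.hasSum hp x).mapL T).mapL (DY.P i)
    rw [← h2.tsum_eq]
    refine tsum_of_norm_bounded (hs1 i).hasSum fun j => ?_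
    rw [hx'j]
    exact hT i j x
  calc ∑ j ∈ s, ‖DY.P j (T x)‖ ^ p.toReal
      ≤ ∑ i ∈ s, (∑' j, b i j * ‖x' j‖) ^ p.toReal :=
        Finset.sum_le_sum fun i _ => Real.rpow_le_rpow (norm_nonneg _) (h1 i) hP0.le
    _ ≤ (C * ‖x'‖) ^ p.toReal := schur_sum hp hC hb hr' hc' x' s
    _ ≤ (C * ‖x‖) ^ p.toReal := Real.rpow_le_rpow (by positivity)
        (mul_le_mul_of_nonneg_left hx' hC) hP0.le

end

section

variable {p : ℝ≥0∞} [Fact (1 ≤ p)] {ι κ : Type} [DecidableEq ι] [DecidableEq κ]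
  {E : ι → Type} [∀ i, NormedAddCommGroup (E i)] [∀ i, NormedSpace ℂ (E i)]

/-- decomposition of an `l^p` sum by the fibres of `β` -/
def decLp (hp : p ≠ ∞) (β : ι → κ) : Dec p κ (lp E p) where
  P j := trunc p {n | β n = j}
  P_mul i j x := by
    refine lp.ext (funext fun n => ?_)
    by_cases hi : β n = i
    · rw [trunc_of_mem _ (show n ∈ {n | β n = i} from hi)]
      by_cases hij : i = j
      · rw [if_pos hij]
      · rw [if_neg hij, trunc_of_notMem _ (show n ∉ {n | β n = j} from fun h => hij (hi.symm.trans h))]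
        rfl
    · rw [trunc_of_notMem _ (show n ∉ {n | β n = i} from hi)]
      by_cases hij : i = j
      · rw [if_pos hij, trunc_of_notMem _ (show n ∉ {n | β n = j} from
          fun h => hi (Eq.trans h hij.symm))]
      · rw [if_neg hij]
        rfl
  sum_le x s := by
    have hP0 := toReal_pos' (p := p) hp
    have hx := lp.hasSum_norm hP0 x
    have h1 : ∀ j, HasSum (fun n => if β n = j then ‖x n‖ ^ p.toReal else 0)
        (‖trunc p {n | β n = j} x‖ ^ p.toReal) := fun j => by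
      have h := lp.hasSum_norm hP0 (trunc p {n | β n = j} x)
      convert! h using 1
      funext n
      by_cases hn : β n = j
      · rw [if_pos hn, trunc_of_mem _ (show n ∈ {n | β n = j} from hn)]
      · rw [if_neg hn, trunc_of_notMem _ (show n ∉ {n | β n = j} from hn), norm_zero,
          Real.zero_rpow hP0.ne']
    have h2 := hasSum_sum (fun j (_ : j ∈ s) => h1 j)
    refine hasSum_le (fun n => ?_) h2 hx
    rw [Finset.sum_ite_eq]
    split_ifs
    · exact le_rfl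
    · exact Real.rpow_nonneg (norm_nonneg _) _
  norm_le x C hC h := by
    have hP0 := toReal_pos' (p := p) hp
    refine lp.norm_le_of_forall_sum_le hP0 hC fun t => ?_
    refine le_trans ?_ (h (t.image β))
    rw [← Finset.sum_fiberwise_of_maps_to (fun n hn => Finset.mem_image_of_mem β hn)]
    refine Finset.sum_le_sum fun j _ => ?_
    refine le_trans (le_of_eq ?_) (lp.sum_rpow_le_norm_rpow hP0 (trunc p {n | β n = j} x)
      (t.filter (fun n => β n = j)))
    refine Finset.sum_congr rfl fun n hn => ?_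
    rw [trunc_of_mem _ (show n ∈ {n | β n = j} from (Finset.mem_filter.1 hn).2)]

/-- decomposition of an `l^p` sum of decomposed spaces -/
def Dec.sum (hp : p ≠ ∞) (D : ∀ i, Dec p κ (E i)) : Dec p (ι × κ) (lp E p) where
  P q := (lp.singleContinuousLinearMap ℂ E p q.1) ∘L ((D q.1).P q.2) ∘L lp.evalCLM ℂ E p q.1
  P_mul i j x := by
    obtain ⟨i, k⟩ := i
    obtain ⟨j, l⟩ := j
    change lp.single p i ((D i).P k ((lp.single p j ((D j).P l (x j))) i)) = _
    by_cases hij : i = j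
    · subst hij
      rw [lp.single_apply_self, (D i).P_mul]
      by_cases hkl : k = l
      · subst hkl
        rw [if_pos rfl, if_pos rfl]
        rfl
      · rw [if_neg hkl, if_neg (fun h => hkl (Prod.ext_iff.1 h).2), lp.single_zero]
    · rw [lp.single_apply_ne p j _ hij, map_zero, lp.single_zero,
        if_neg (fun h => hij (Prod.ext_iff.1 h).1)]
  sum_le x s := by
    have hP0 := toReal_pos' (p := p) hp
    have h0 : ∀ q : ι × κ, ‖((lp.singleContinuousLinearMap ℂ E p q.1) ∘L ((D q.1).P q.2) ∘L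
        lp.evalCLM ℂ E p q.1) x‖ = ‖(D q.1).P q.2 (x q.1)‖ := fun q =>
      lp.norm_single (zero_lt_one.trans_le (Fact.out : (1 : ℝ≥0∞) ≤ p)) q.1 _
    simp only [h0]
    calc ∑ q ∈ s, ‖(D q.1).P q.2 (x q.1)‖ ^ p.toReal
        ≤ ∑ q ∈ s.image Prod.fst ×ˢ s.image Prod.snd,
            ‖(D q.1).P q.2 (x q.1)‖ ^ p.toReal :=
          Finset.sum_le_sum_of_subset_of_nonneg Finset.subset_product
            (fun _ _ _ => Real.rpow_nonneg (norm_nonneg _) _)
      _ = ∑ i ∈ s.image Prod.fst, ∑ k ∈ s.image Prod.snd, ‖(D i).P k (x i)‖ ^ p.toReal :=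
          Finset.sum_product _ _ _
      _ ≤ ∑ i ∈ s.image Prod.fst, ‖x i‖ ^ p.toReal :=
          Finset.sum_le_sum fun i _ => (D i).sum_le (x i) _
      _ ≤ ‖x‖ ^ p.toReal := lp.sum_rpow_le_norm_rpow hP0 x _
  norm_le x C hC h := by
    have hP0 := toReal_pos' (p := p) hp
    have h0 : ∀ q : ι × κ, ‖((lp.singleContinuousLinearMap ℂ E p q.1) ∘L ((D q.1).P q.2) ∘L
        lp.evalCLM ℂ E p q.1) x‖ = ‖(D q.1).P q.2 (x q.1)‖ := fun q =>
      lp.norm_single (zero_lt_one.trans_le (Fact.out : (1 : ℝ≥0∞) ≤ p)) q.1 _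
    simp only [h0] at h
    refine lp.norm_le_of_forall_sum_le hP0 hC fun t => ?_
    have h1 : ∀ i, ‖x i‖ ^ p.toReal ≤ ∑' k, ‖(D i).P k (x i)‖ ^ p.toReal := fun i => by
      have ha : 0 ≤ ∑' k, ‖(D i).P k (x i)‖ ^ p.toReal :=
        tsum_nonneg fun k => Real.rpow_nonneg (norm_nonneg _) _
      have hb : ‖x i‖ ≤ (∑' k, ‖(D i).P k (x i)‖ ^ p.toReal) ^ (p.toReal)⁻¹ := by
        refine (D i).norm_le _ _ (Real.rpow_nonneg ha _) fun s => ?_
        rw [← Real.rpow_mul ha, inv_mul_cancel₀ hP0.ne', Real.rpow_one]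
        exact ((D i).summable (x i)).sum_le_tsum s fun _ _ => Real.rpow_nonneg (norm_nonneg _) _
      refine (Real.rpow_le_rpow (norm_nonneg _) hb hP0.le).trans (le_of_eq ?_)
      rw [← Real.rpow_mul ha, inv_mul_cancel₀ hP0.ne', Real.rpow_one]
    refine (Finset.sum_le_sum fun i _ => h1 i).trans ?_
    rw [← Summable.tsum_finsetSum fun i _ => (D i).summable (x i)]
    refine (summable_sum fun i _ => (D i).summable (x i)).tsum_le_of_sum_le fun s => ?_
    rw [Finset.sum_comm]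
    refine le_trans (le_of_eq ?_) (h (t ×ˢ s))
    rw [Finset.sum_product]

end

end Pool.Agent.H30.BDFP
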