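import Pool.Agent.H30.BDFP.Com

attribute [local instance] Pool.Agent.H33.BDFP.NV.instNACG Pool.Agent.H33.BDFP.NV.instModule
  Pool.Agent.H33.BDFP.NV.instNormedSpace Pool.Agent.H33.BDFP.NV.instFD
  Pool.Agent.H33.BDFP.NV.instComplete

/-!
Module DIL of the project BDFP, part 4: reindexing of the fibres, compactness with small tails.
-/

open scoped ENNReal NNReal

noncomputable section

namespace Pool.Agent.H30.BDFP

open Pool.Agent.H33.BDFP Pool.Agent.H74.BDFP

/-! ### reindexing -/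

/-- the fibre dimensions -/
def rr (m : ℕ → ℕ) (n : ℕ) : ℕ := m (Nat.unpair n).1 + 1

/-- embedding of the fibre indices -/
def emb (m : ℕ → ℕ) (k n : ℕ) (i : Fin (m k)) : Fin (rr m (Nat.pair k n)) :=
  Fin.cast (by unfold rr; rw [Nat.unpair_pair]) i.castSucc

lemma emb_val (m : ℕ → ℕ) (k n : ℕ) (i : Fin (m k)) : (emb m k n i : ℕ) = i := rfl

lemma emb_inj (m : ℕ → ℕ) (k n : ℕ) : Function.Injective (emb m k n) := by
  intro i j h
  have := congrArg Fin.val h
  exact Fin.ext this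

/-- the sum of the spaces -/
abbrev ZW (m : ℕ → ℕ) (p : ℝ≥0∞) [Fact (1 ≤ p)] : Type :=
  lp (fun k : ℕ => ZP (fun _ => m k) p) p

section

set_option linter.unusedSectionVars false

variable {p : ℝ≥0∞} [Fact (1 ≤ p)] (m : ℕ → ℕ)

/-- extension by zero of the fibre -/
def extF (n : ℕ) (x : EuclideanSpace ℂ (Fin (m (Nat.unpair n).1))) :
    EuclideanSpace ℂ (Fin (rr m n)) :=
  WithLp.toLp 2 (fun j => if h : (j : ℕ) < m (Nat.unpair n).1 then x ⟨j, h⟩ else 0)

lemma extF_apply (n : ℕ) (x : EuclideanSpace ℂ (Fin (m (Nat.unpair n).1))) (j : Fin (rr m n)) :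
    extF m n x j = if h : (j : ℕ) < m (Nat.unpair n).1 then x ⟨j, h⟩ else 0 := rfl

lemma norm_extF (n : ℕ) (x : EuclideanSpace ℂ (Fin (m (Nat.unpair n).1))) :
    ‖extF m n x‖ = ‖x‖ := by
  rw [EuclideanSpace.norm_eq, EuclideanSpace.norm_eq]
  congr 1
  change ∑ j : Fin (m (Nat.unpair n).1 + 1),
    ‖(if h : (j : ℕ) < m (Nat.unpair n).1 then x ⟨j, h⟩ else 0 : ℂ)‖ ^ 2 = _
  rw [Fin.sum_univ_castSucc]
  have h1 : ‖(if h : ((Fin.last (m (Nat.unpair n).1) : Fin (m (Nat.unpair n).1 + 1)) : ℕ) <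
      m (Nat.unpair n).1 then x ⟨_, h⟩ else 0 : ℂ)‖ ^ 2 = 0 := by
    rw [dif_neg (by simp), norm_zero]
    norm_num
  rw [h1, add_zero]
  refine Finset.sum_congr rfl fun j _ => ?_
  rw [dif_pos (show ((j.castSucc : Fin (m (Nat.unpair n).1 + 1)) : ℕ) < _ from j.2)]
  rfl

lemma sum_image_le (hp : p ≠ ∞) (z : ZW m p) (e : ℕ → ℕ × ℕ) (he : Function.Injective e)
    (t : Finset ℕ) : ∑ n ∈ t, ‖z (e n).1 (e n).2‖ ^ p.toReal ≤ ‖z‖ ^ p.toReal := by
  have hP0 := toReal_pos' (p := p) hp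
  calc ∑ n ∈ t, ‖z (e n).1 (e n).2‖ ^ p.toReal
      = ∑ q ∈ t.image e, ‖z q.1 q.2‖ ^ p.toReal :=
        (Finset.sum_image (f := fun q : ℕ × ℕ => ‖z q.1 q.2‖ ^ p.toReal)
          (fun x _ y _ h => he h)).symm
    _ ≤ ∑ q ∈ (t.image e).image Prod.fst ×ˢ (t.image e).image Prod.snd,
          ‖z q.1 q.2‖ ^ p.toReal :=
        Finset.sum_le_sum_of_subset_of_nonneg Finset.subset_product
          (fun _ _ _ => Real.rpow_nonneg (norm_nonneg _) _)
    _ = ∑ k ∈ (t.image e).image Prod.fst, ∑ n ∈ (t.image e).image Prod.snd,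
          ‖z k n‖ ^ p.toReal := Finset.sum_product _ _ _
    _ ≤ ∑ k ∈ (t.image e).image Prod.fst, ‖z k‖ ^ p.toReal :=
        Finset.sum_le_sum fun k _ => lp.sum_rpow_le_norm_rpow hP0 (z k) _
    _ ≤ ‖z‖ ^ p.toReal := lp.sum_rpow_le_norm_rpow hP0 z _

lemma unpair_inj : Function.Injective Nat.unpair := fun a b h => by
  rw [← Nat.pair_unpair a, ← Nat.pair_unpair b, h]

lemma sum_iota (hp : p ≠ ∞) (z : ZW m p) (t : Finset ℕ) :
    ∑ n ∈ t, ‖extF m n (z (Nat.unpair n).1 (Nat.unpair n).2)‖ ^ p.toReal ≤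
      ‖z‖ ^ p.toReal := by
  simp only [norm_extF]
  exact sum_image_le m hp z Nat.unpair unpair_inj t

/-- the embedding -/
def iotaW (hp : p ≠ ∞) : ZW m p →L[ℂ] ZP (rr m) p :=
  LinearMap.mkContinuous
    { toFun := fun z => ⟨fun n => extF m n (z (Nat.unpair n).1 (Nat.unpair n).2),
        memℓp_gen' (sum_iota m hp z)⟩
      map_add' := fun x y => by
        refine lp.ext (funext fun n => ?_)
        ext j
        change extF m n _ j = extF m n _ j + extF m n _ j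
        rw [extF_apply, extF_apply, extF_apply]
        split_ifs
        · rfl
        · rw [add_zero]
      map_smul' := fun c x => by
        refine lp.ext (funext fun n => ?_)
        ext j
        change extF m n _ j = c * extF m n _ j
        rw [extF_apply, extF_apply]
        split_ifs
        · rfl
        · rw [mul_zero] }
    1 (fun z => by
      rw [one_mul]
      exact lp.norm_le_of_forall_sum_le (toReal_pos' (p := p) hp) (norm_nonneg _)
        (sum_iota m hp z))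

lemma iotaW_apply (hp : p ≠ ∞) (z : ZW m p) (n : ℕ) (j : Fin (rr m n)) : iotaW m hp z n j =
    if h : (j : ℕ) < m (Nat.unpair n).1 then z (Nat.unpair n).1 (Nat.unpair n).2 ⟨j, h⟩
      else 0 := rfl

/-- restriction of the fibre -/
def resF (k n : ℕ) (x : EuclideanSpace ℂ (Fin (rr m (Nat.pair k n)))) :
    EuclideanSpace ℂ (Fin (m k)) := WithLp.toLp 2 (fun i => x (emb m k n i))

lemma resF_apply (k n : ℕ) (x : EuclideanSpace ℂ (Fin (rr m (Nat.pair k n)))) (i : Fin (m k)) :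
    resF m k n x i = x (emb m k n i) := rfl

lemma norm_resF_le (k n : ℕ) (x : EuclideanSpace ℂ (Fin (rr m (Nat.pair k n)))) :
    ‖resF m k n x‖ ≤ ‖x‖ := by
  rw [EuclideanSpace.norm_eq, EuclideanSpace.norm_eq]
  apply Real.sqrt_le_sqrt
  have h1 : ∑ i, ‖resF m k n x i‖ ^ 2 =
      ∑ j ∈ Finset.univ.map ⟨emb m k n, emb_inj m k n⟩, ‖x j‖ ^ 2 := by
    rw [Finset.sum_map]
    rfl
  rw [h1]
  exact Finset.sum_le_univ_sum_of_nonneg (fun _ => sq_nonneg _)

lemma sum_pi (hp : p ≠ ∞) (y : ZP (rr m) p) (s t : Finset ℕ) :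
    ∑ k ∈ s, ∑ n ∈ t, ‖resF m k n (y (Nat.pair k n))‖ ^ p.toReal ≤ ‖y‖ ^ p.toReal := by
  have hP0 := toReal_pos' (p := p) hp
  calc ∑ k ∈ s, ∑ n ∈ t, ‖resF m k n (y (Nat.pair k n))‖ ^ p.toReal
      ≤ ∑ k ∈ s, ∑ n ∈ t, ‖y (Nat.pair k n)‖ ^ p.toReal :=
        Finset.sum_le_sum fun k _ => Finset.sum_le_sum fun n _ =>
          Real.rpow_le_rpow (norm_nonneg _) (norm_resF_le m k n _) hP0.le
    _ = ∑ q ∈ s ×ˢ t, ‖y (Nat.pair q.1 q.2)‖ ^ p.toReal :=
        (Finset.sum_product s t (fun q : ℕ × ℕ => ‖y (Nat.pair q.1 q.2)‖ ^ p.toReal)).symm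
    _ = ∑ n ∈ (s ×ˢ t).image (fun q => Nat.pair q.1 q.2), ‖y n‖ ^ p.toReal := by
        refine (Finset.sum_image (f := fun n => ‖y n‖ ^ p.toReal) ?_).symm
        intro a _ b _ h
        obtain ⟨h1, h2⟩ := Nat.pair_eq_pair.1 h
        exact Prod.ext h1 h2
    _ ≤ ‖y‖ ^ p.toReal := lp.sum_rpow_le_norm_rpow hP0 y _

lemma sum_pi₁ (hp : p ≠ ∞) (y : ZP (rr m) p) (k : ℕ) (t : Finset ℕ) :
    ∑ n ∈ t, ‖resF m k n (y (Nat.pair k n))‖ ^ p.toReal ≤ ‖y‖ ^ p.toReal := by
  have h := sum_pi m hp y {k} t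
  rwa [Finset.sum_singleton] at h

/-- one component of the projection -/
def piK (hp : p ≠ ∞) (y : ZP (rr m) p) (k : ℕ) : ZP (fun _ => m k) p :=
  ⟨fun n => resF m k n (y (Nat.pair k n)), memℓp_gen' (sum_pi₁ m hp y k)⟩

lemma piK_apply (hp : p ≠ ∞) (y : ZP (rr m) p) (k n : ℕ) (i : Fin (m k)) :
    piK m hp y k n i = y (Nat.pair k n) (emb m k n i) := rfl

lemma sum_pi₂ (hp : p ≠ ∞) (y : ZP (rr m) p) (s : Finset ℕ) :
    ∑ k ∈ s, ‖piK m hp y k‖ ^ p.toReal ≤ ‖y‖ ^ p.toReal := by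
  have hP0 := toReal_pos' (p := p) hp
  have h1 := hasSum_sum (fun k (_ : k ∈ s) => lp.hasSum_norm hP0 (piK m hp y k))
  refine le_of_tendsto h1 (Filter.Eventually.of_forall fun t => ?_)
  rw [Finset.sum_comm]
  exact sum_pi m hp y s t

/-- the projection -/
def piW (hp : p ≠ ∞) : ZP (rr m) p →L[ℂ] ZW m p :=
  LinearMap.mkContinuous
    { toFun := fun y => ⟨fun k => piK m hp y k, memℓp_gen' (sum_pi₂ m hp y)⟩
      map_add' := fun _ _ => rfl
      map_smul' := fun _ _ => rfl }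
    1 (fun y => by
      rw [one_mul]
      exact lp.norm_le_of_forall_sum_le (toReal_pos' (p := p) hp) (norm_nonneg _)
        (sum_pi₂ m hp y))

lemma piW_apply (hp : p ≠ ∞) (y : ZP (rr m) p) (k n : ℕ) (i : Fin (m k)) :
    piW m hp y k n i = y (Nat.pair k n) (emb m k n i) := rfl

lemma piW_iotaW (hp : p ≠ ∞) : piW m hp ∘L iotaW m hp = ContinuousLinearMap.id ℂ (ZW m p) := by
  refine ContinuousLinearMap.ext fun z => lp.ext (funext fun k => lp.ext (funext fun n => ?_))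
  ext i
  change piW m hp (iotaW m hp z) k n i = z k n i
  rw [piW_apply, iotaW_apply]
  have key : ∀ q : ℕ × ℕ, q = (k, n) → ∀ h : (i : ℕ) < m q.1, z q.1 q.2 ⟨i, h⟩ = z k n i := by
    rintro _ rfl h
    rfl
  have hlt : ((emb m k n i : Fin (rr m (Nat.pair k n))) : ℕ) < m (Nat.unpair (Nat.pair k n)).1 := by
    rw [Nat.unpair_pair]
    exact i.2
  rw [dif_pos hlt]
  exact key _ (Nat.unpair_pair k n) _

variable {M : Set ℂ} [CompactSpace M]

/-- the points of the diagonal representation -/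
def vv (v : ∀ k, Fin (m k) → M) (u : ℕ → M) (n : ℕ) (j : Fin (rr m n)) : M :=
  if h : (j : ℕ) < m (Nat.unpair n).1 then v (Nat.unpair n).1 ⟨j, h⟩ else u n

lemma vv_emb (v : ∀ k, Fin (m k) → M) (u : ℕ → M) (k n : ℕ) (i : Fin (m k)) :
    vv m v u (Nat.pair k n) (emb m k n i) = v k i := by
  have key : ∀ q : ℕ × ℕ, q = (k, n) → ∀ h : (i : ℕ) < m q.1, v q.1 ⟨i, h⟩ = v k i := by
    rintro _ rfl h
    rfl
  have hlt : ((emb m k n i : Fin (rr m (Nat.pair k n))) : ℕ) < m (Nat.unpair (Nat.pair k n)).1 := by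
    rw [Nat.unpair_pair]
    exact i.2
  unfold vv
  rw [dif_pos hlt]
  exact key _ (Nat.unpair_pair k n) _

lemma diagRep_contr {r : ℕ → ℕ} (v : ∀ n, Fin (r n) → M) : (diagRep v p).Contr :=
  fun a => lp.norm_mapCLM_le p _ (norm_nonneg a) (fun n => eucRep_contr (v n) a)

/-- the representation on the sum -/
def tauW (v : ∀ k, Fin (m k) → M) (p : ℝ≥0∞) [Fact (1 ≤ p)] : Rep M (ZW m p) :=
  Rep.lpSum p (fun k => diagRep (r := fun _ => m k) (fun _ => v k) p)
    (fun _ => diagRep_contr _)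

lemma tauW_apply (v : ∀ k, Fin (m k) → M) (a : C(M, ℂ)) (z : ZW m p) (k : ℕ) :
    (tauW m v p).hom a z k = (diagRep (r := fun _ => m k) (fun _ => v k) p).hom a (z k) := rfl

lemma iota_tau (hp : p ≠ ∞) (v : ∀ k, Fin (m k) → M) (u : ℕ → M) (a : C(M, ℂ)) :
    iotaW m hp ∘L (tauW m v p).hom a = (diagRep (vv m v u) p).hom a ∘L iotaW m hp := by
  refine ContinuousLinearMap.ext fun z => lp.ext (funext fun n => ?_)
  ext j
  change iotaW m hp ((tauW m v p).hom a z) n j =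
    (diagRep (vv m v u) p).hom a (iotaW m hp z) n j
  rw [diagRep_apply, iotaW_apply, iotaW_apply]
  unfold vv
  split_ifs with h
  · rfl
  · rw [mul_zero]

lemma pi_tau (hp : p ≠ ∞) (v : ∀ k, Fin (m k) → M) (u : ℕ → M) (a : C(M, ℂ)) :
    piW m hp ∘L (diagRep (vv m v u) p).hom a = (tauW m v p).hom a ∘L piW m hp := by
  refine ContinuousLinearMap.ext fun y => lp.ext (funext fun k => lp.ext (funext fun n => ?_))
  ext i
  change piW m hp ((diagRep (vv m v u) p).hom a y) k n i =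
    (tauW m v p).hom a (piW m hp y) k n i
  rw [piW_apply, tauW_apply, diagRep_apply, diagRep_apply, piW_apply, vv_emb]

/-- the extra index -/
def i0 (n : ℕ) : Fin (rr m n) := Fin.last _

lemma vv_i0 (v : ∀ k, Fin (m k) → M) (u : ℕ → M) (n : ℕ) : vv m v u n (i0 m n) = u n := by
  unfold vv
  rw [dif_neg (show ¬ ((i0 m n : ℕ) < m (Nat.unpair n).1) from lt_irrefl _)]

lemma iota_i0 (hp : p ≠ ∞) (z : ZW m p) (n : ℕ) : iotaW m hp z n (i0 m n) = 0 := by
  rw [iotaW_apply, dif_neg (show ¬ ((i0 m n : ℕ) < m (Nat.unpair n).1) from lt_irrefl _)]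

lemma pi_i0 (hp : p ≠ ∞) (n : ℕ) (c : ℂ) :
    piW m hp (lp.single p n (EuclideanSpace.single (i0 m n) c)) = 0 := by
  refine lp.ext (funext fun k => lp.ext (funext fun l => ?_))
  ext i
  rw [piW_apply]
  by_cases h : Nat.pair k l = n
  · subst h
    rw [lp.single_apply_self, PiLp.single_apply, if_neg]
    · rfl
    · intro h1
      have h2 := congrArg Fin.val h1
      rw [emb_val] at h2
      have h3 : (i0 m (Nat.pair k l) : ℕ) = m (Nat.unpair (Nat.pair k l)).1 := rfl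
      rw [h3, Nat.unpair_pair] at h2
      exact absurd i.2 (not_lt.2 h2.ge)
  · rw [lp.single_apply_ne p n _ h]
    rfl

end

/-! ### small tails -/

section

variable {p : ℝ≥0∞} [Fact (1 ≤ p)] {Y : ℕ → Type} [∀ k, NormedAddCommGroup (Y k)]
  [∀ k, NormedSpace ℂ (Y k)]

/-- cutting off the first terms -/
def cutD {X : ℕ → Type} [∀ k, NormedAddCommGroup (X k)] [∀ k, NormedSpace ℂ (X k)]
    (D : ∀ k, X k →L[ℂ] Y k) (l : ℕ) (k : ℕ) : X k →L[ℂ] Y k := if k < l then 0 else D k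

lemma norm_cutD {X : ℕ → Type} [∀ k, NormedAddCommGroup (X k)] [∀ k, NormedSpace ℂ (X k)]
    (D : ∀ k, X k →L[ℂ] Y k) (l : ℕ) {ε : ℝ} (hε : 0 ≤ ε) (h : ∀ k, l ≤ k → ‖D k‖ ≤ ε) (k : ℕ) :
    ‖cutD D l k‖ ≤ ε := by
  unfold cutD
  split_ifs with hk
  · rw [norm_zero]
    exact hε
  · exact h k (not_lt.1 hk)

lemma isCompactOperator_sum {X Y : Type} [NormedAddCommGroup X] [NormedSpace ℂ X]
    [NormedAddCommGroup Y] [NormedSpace ℂ Y] (s : Finset ℕ) (f : ℕ → X →L[ℂ] Y)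
    (h : ∀ k ∈ s, IsCompactOperator (⇑(f k))) : IsCompactOperator (⇑(∑ k ∈ s, f k)) := by
  have h3 : (∑ k ∈ s, f k) ∈
      compactOperator (RingHom.id ℂ) X Y := Submodule.sum_mem _ fun j hj => h j hj
  exact h3

lemma compact_tail₁ [∀ k, CompleteSpace (Y k)] (q : ℕ → (LP p →L[ℂ] LP p))
    (hq : ∀ k, IsCompactOperator (⇑(q k)))
    (Q : LP p →L[ℂ] LW p) (hQ : ∀ x k, Q x k = q k x) (D : ∀ k, LP p →L[ℂ] Y k) {K : ℝ}
    (hK : 0 ≤ K) (hD : ∀ k, ‖D k‖ ≤ K)
    (h : ∀ ε : ℝ, 0 < ε → ∃ l, ∀ k, l ≤ k → ‖D k‖ ≤ ε) :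
    IsCompactOperator (⇑((lp.mapCLM p D hK hD : LW p →L[ℂ] lp Y p) ∘L Q)) := by
  rw [← eqK_zero_iff]
  refine eqK_of_forall_approx _ _ fun ε hε => ?_
  obtain ⟨l, hl⟩ := h (ε / (‖Q‖ + 1)) (by positivity)
  refine ⟨∑ k ∈ Finset.range l, lp.singleContinuousLinearMap ℂ Y p k ∘L (D k ∘L q k),
    isCompactOperator_sum _ _ fun k _ =>
      (hq k).clm_comp (lp.singleContinuousLinearMap ℂ Y p k ∘L D k), ?_⟩
  have hε' : 0 ≤ ε / (‖Q‖ + 1) := by positivity
  have h1 : (lp.mapCLM p D hK hD : LW p →L[ℂ] lp Y p) ∘L Q - 0 -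
      ∑ k ∈ Finset.range l, lp.singleContinuousLinearMap ℂ Y p k ∘L (D k ∘L q k) =
      (lp.mapCLM p (cutD D l) hε' (norm_cutD D l hε' hl) : LW p →L[ℂ] lp Y p) ∘L Q := by
    refine ContinuousLinearMap.ext fun x => lp.ext (funext fun n => ?_)
    rw [sub_zero, sub_apply, sum_apply, lp.coeFn_sub,
      Pi.sub_apply, lp.coeFn_sum, Finset.sum_apply]
    change D n (Q x n) - ∑ k ∈ Finset.range l, lp.single p k (D k (q k x)) n =
      cutD D l n (Q x n)
    rw [hQ]
    unfold cutD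
    by_cases hn : n < l
    · rw [if_pos hn, Finset.sum_eq_single n]
      · rw [lp.single_apply_self, sub_self]
        rfl
      · intro k _ hk
        exact lp.single_apply_ne p k _ (Ne.symm hk)
      · intro h
        exact absurd (Finset.mem_range.2 hn) h
    · rw [if_neg hn, Finset.sum_eq_zero, sub_zero]
      intro k hk
      exact lp.single_apply_ne p k _ (fun h => hn (h ▸ Finset.mem_range.1 hk))
  rw [h1]
  refine (ContinuousLinearMap.opNorm_comp_le _ _).trans ?_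
  refine (mul_le_mul_of_nonneg_right (lp.norm_mapCLM_le p _ hε' _) (norm_nonneg _)).trans ?_
  rw [div_mul_eq_mul_div, div_le_iff₀ (by positivity)]
  nlinarith [norm_nonneg Q]

lemma compact_tail₂ (q : ℕ → (LP p →L[ℂ] LP p)) (hq : ∀ k, IsCompactOperator (⇑(q k)))
    (Q : LW p →L[ℂ] LP p) (hQ : ∀ k x, Q (lp.single p k x) = q k x) (D : ∀ k, Y k →L[ℂ] LP p)
    {K : ℝ} (hK : 0 ≤ K) (hD : ∀ k, ‖D k‖ ≤ K)
    (h : ∀ ε : ℝ, 0 < ε → ∃ l, ∀ k, l ≤ k → ‖D k‖ ≤ ε) :
    IsCompactOperator (⇑(Q ∘L (lp.mapCLM p D hK hD : lp Y p →L[ℂ] LW p))) := by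
  rw [← eqK_zero_iff]
  refine eqK_of_forall_approx _ _ fun ε hε => ?_
  obtain ⟨l, hl⟩ := h (ε / (‖Q‖ + 1)) (by positivity)
  refine ⟨∑ k ∈ Finset.range l, q k ∘L (D k ∘L lp.evalCLM ℂ Y p k),
    isCompactOperator_sum _ _ fun k _ => (hq k).comp_clm _, ?_⟩
  have hε' : 0 ≤ ε / (‖Q‖ + 1) := by positivity
  have h1 : Q ∘L (lp.mapCLM p D hK hD : lp Y p →L[ℂ] LW p) - 0 -
      ∑ k ∈ Finset.range l, q k ∘L (D k ∘L lp.evalCLM ℂ Y p k) =
      Q ∘L (lp.mapCLM p (cutD D l) hε' (norm_cutD D l hε' hl) : lp Y p →L[ℂ] LW p) := by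
    refine ContinuousLinearMap.ext fun y => ?_
    rw [sub_zero, sub_apply, sum_apply]
    change Q ((lp.mapCLM p D hK hD : lp Y p →L[ℂ] LW p) y) -
      ∑ k ∈ Finset.range l, q k (D k (y k)) = Q ((lp.mapCLM p (cutD D l) hε'
        (norm_cutD D l hε' hl) : lp Y p →L[ℂ] LW p) y)
    have h2 : (lp.mapCLM p D hK hD : lp Y p →L[ℂ] LW p) y = (lp.mapCLM p (cutD D l) hε'
        (norm_cutD D l hε' hl) : lp Y p →L[ℂ] LW p) y +
        ∑ k ∈ Finset.range l, lp.single (E := fun _ : ℕ => LP p) p k (D k (y k)) := by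
      refine lp.ext (funext fun n => ?_)
      rw [lp.coeFn_add, Pi.add_apply, lp.coeFn_sum, Finset.sum_apply]
      change D n (y n) = cutD D l n (y n) +
        ∑ k ∈ Finset.range l, lp.single (E := fun _ : ℕ => LP p) p k (D k (y k)) n
      unfold cutD
      by_cases hn : n < l
      · rw [if_pos hn, Finset.sum_eq_single n]
        · rw [lp.single_apply_self]
          change _ = 0 + _
          rw [zero_add]
        · intro k _ hk
          exact lp.single_apply_ne (E := fun _ : ℕ => LP p) p k _ (Ne.symm hk)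
        · intro h
          exact absurd (Finset.mem_range.2 hn) h
      · rw [if_neg hn, Finset.sum_eq_zero, add_zero]
        intro k hk
        exact lp.single_apply_ne (E := fun _ : ℕ => LP p) p k _
          (fun h => hn (h ▸ Finset.mem_range.1 hk))
    rw [h2, map_add, map_sum]
    simp only [hQ]
    rw [add_sub_cancel_right]
  rw [h1]
  refine (ContinuousLinearMap.opNorm_comp_le _ _).trans ?_
  refine (mul_le_mul_of_nonneg_left (lp.norm_mapCLM_le p _ hε' _) (norm_nonneg _)).trans ?_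
  rw [mul_div_assoc', div_le_iff₀ (by positivity)]
  nlinarith [norm_nonneg Q]

/-- operators on `ZP` agree if they agree on the coordinate vectors -/
lemma zp_ext (hp : p ≠ ∞) {r : ℕ → ℕ} {X : Type} [NormedAddCommGroup X] [NormedSpace ℂ X]
    (S T : ZP r p →L[ℂ] X) (h : ∀ n i (c : ℂ), S (lp.single p n (EuclideanSpace.single i c)) =
      T (lp.single p n (EuclideanSpace.single i c))) : S = T := by
  have h0 : ∀ n (x : EuclideanSpace ℂ (Fin (r n))), S (lp.single p n x) = T (lp.single p n x) := by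
    intro n x
    have hx : x = ∑ i, EuclideanSpace.single i (x i) := by
      ext j
      rw [WithLp.ofLp_sum, Finset.sum_apply, Finset.sum_eq_single j]
      · simp
      · intro i _ hi
        simp [Ne.symm hi]
      · intro h
        exact absurd (Finset.mem_univ j) h
    rw [hx]
    have h1 : lp.single (E := fun n : ℕ => EuclideanSpace ℂ (Fin (r n))) p n
        (∑ i, EuclideanSpace.single i (x i)) =
        ∑ i, lp.single p n (EuclideanSpace.single i (x i)) :=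
      map_sum (lp.singleContinuousLinearMap ℂ
        (fun n : ℕ => EuclideanSpace ℂ (Fin (r n))) p n) _ _
    rw [h1, map_sum, map_sum]
    exact Finset.sum_congr rfl fun i _ => h n i (x i)
  refine ContinuousLinearMap.ext fun x => ?_
  have h1 := (lp.hasSum_single hp x).mapL S
  have h2 := (lp.hasSum_single hp x).mapL T
  simp only [h0] at h1
  exact h1.unique h2

end

end Pool.Agent.H30.BDFP
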