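import Pool.Agent.H30.BDFP.Dec

attribute [local instance] Pool.Agent.H33.BDFP.NV.instNACG Pool.Agent.H33.BDFP.NV.instModule
  Pool.Agent.H33.BDFP.NV.instNormedSpace Pool.Agent.H33.BDFP.NV.instFD
  Pool.Agent.H33.BDFP.NV.instComplete

/-!
Module DIL of the project BDFP, part 2: slowly varying windows, scalar estimates.
-/

open scoped ENNReal NNReal

noncomputable section

namespace Pool.Agent.H30.BDFP

open Pool.Agent.H33.BDFP Pool.Agent.H74.BDFP

/-! ### windows -/

/-- the cosine bump -/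
def bump (x : ℝ) : ℝ := Real.cos (Real.pi / 2 * min 1 |x|)

lemma bump_arg (x : ℝ) : 0 ≤ Real.pi / 2 * min 1 |x| ∧ Real.pi / 2 * min 1 |x| ≤ Real.pi / 2 := by
  have h1 : 0 ≤ min 1 |x| := le_min zero_le_one (abs_nonneg x)
  have h2 : min 1 |x| ≤ 1 := min_le_left _ _
  have h3 := Real.pi_pos
  constructor
  · positivity
  · nlinarith

lemma bump_nonneg (x : ℝ) : 0 ≤ bump x :=
  Real.cos_nonneg_of_mem_Icc ⟨by linarith [(bump_arg x).1, Real.pi_pos], (bump_arg x).2⟩

lemma bump_le_one (x : ℝ) : bump x ≤ 1 := Real.cos_le_one _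

lemma bump_zero {x : ℝ} (h : 1 ≤ |x|) : bump x = 0 := by
  unfold bump
  rw [min_eq_left h, mul_one, Real.cos_pi_div_two]

lemma bump_lip (x y : ℝ) : |bump x - bump y| ≤ 2 * |x - y| := by
  unfold bump
  refine (Real.abs_cos_sub_cos_le _ _).trans ?_
  rw [← mul_sub, abs_mul, abs_of_pos (by positivity : 0 < Real.pi / 2)]
  have h1 : Real.pi / 2 ≤ 2 := by linarith [Real.pi_le_four]
  have h2 : |min 1 |x| - min 1 (|y|)| ≤ |x - y| := by
    refine (abs_min_sub_min_le_max _ _ _ _).trans ?_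
    rw [sub_self, abs_zero]
    exact max_le (abs_nonneg _) (abs_abs_sub_abs_le_abs_sub x y)
  exact mul_le_mul h1 h2 (abs_nonneg _) (by norm_num)

lemma bump_sq {t : ℝ} (h0 : 0 ≤ t) (h1 : t ≤ 1) : bump t ^ 2 + bump (t - 1) ^ 2 = 1 := by
  unfold bump
  have e1 : min 1 |t| = t := by rw [abs_of_nonneg h0, min_eq_right h1]
  have e2 : min 1 |t - 1| = 1 - t := by
    rw [abs_of_nonpos (by linarith), min_eq_right (by linarith)]
    ring
  rw [e1, e2, mul_sub, mul_one, Real.cos_pi_div_two_sub]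
  exact Real.cos_sq_add_sin_sq _

/-- the window `k` at the block `j` -/
def win (k j : ℕ) : ℝ := bump (Real.sqrt j - k)

/-- the windows that are nonzero at the block `j` -/
def chi (k j : ℕ) : ℝ := if k = Nat.sqrt j ∨ k = Nat.sqrt j + 1 then 1 else 0

lemma win_nonneg (k j : ℕ) : 0 ≤ win k j := bump_nonneg _

lemma win_le_one (k j : ℕ) : win k j ≤ 1 := bump_le_one _

lemma chi_nonneg (k j : ℕ) : 0 ≤ chi k j := by unfold chi; split_ifs <;> norm_num

lemma chi_le_one (k j : ℕ) : chi k j ≤ 1 := by unfold chi; split_ifs <;> norm_num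

lemma win_zero {k j : ℕ} (h : ¬ (k = Nat.sqrt j ∨ k = Nat.sqrt j + 1)) : win k j = 0 := by
  apply bump_zero
  have h1 : ((Nat.sqrt j : ℕ) : ℝ) ≤ Real.sqrt j := Real.nat_sqrt_le_real_sqrt
  have h2 : Real.sqrt j < ((Nat.sqrt j : ℕ) : ℝ) + 1 := Real.real_sqrt_lt_nat_sqrt_succ
  have h3 : k + 1 ≤ Nat.sqrt j ∨ Nat.sqrt j + 2 ≤ k := by omega
  rcases h3 with h3 | h3
  · have h4 : (k : ℝ) + 1 ≤ (Nat.sqrt j : ℕ) := by exact_mod_cast h3
    exact le_trans (by linarith) (le_abs_self _)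
  · have h4 : ((Nat.sqrt j : ℕ) : ℝ) + 2 ≤ k := by exact_mod_cast h3
    exact le_trans (by linarith) (neg_le_abs _)

lemma win_sq (j : ℕ) : win (Nat.sqrt j) j ^ 2 + win (Nat.sqrt j + 1) j ^ 2 = 1 := by
  have h1 : ((Nat.sqrt j : ℕ) : ℝ) ≤ Real.sqrt j := Real.nat_sqrt_le_real_sqrt
  have h2 : Real.sqrt j < ((Nat.sqrt j : ℕ) : ℝ) + 1 := Real.real_sqrt_lt_nat_sqrt_succ
  unfold win
  have h3 : Real.sqrt j - ((Nat.sqrt j + 1 : ℕ) : ℝ) = (Real.sqrt j - (Nat.sqrt j : ℕ)) - 1 := by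
    push_cast
    ring
  rw [h3]
  exact bump_sq (by linarith) (by linarith)

/-- the modulus of the windows -/
def th (i j : ℕ) : ℝ := min 1 (2 * |Real.sqrt i - Real.sqrt j|)

lemma th_nonneg (i j : ℕ) : 0 ≤ th i j := le_min zero_le_one (by positivity)

lemma th_le_one (i j : ℕ) : th i j ≤ 1 := min_le_left _ _

lemma win_diff (k i j : ℕ) : |win k i - win k j| ≤ (chi k i + chi k j) * th i j := by
  have h1 : |win k i - win k j| ≤ th i j := by
    refine le_min ?_ ?_
    · rw [abs_le]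
      constructor <;> linarith [win_nonneg k i, win_nonneg k j, win_le_one k i, win_le_one k j]
    · refine (bump_lip _ _).trans (le_of_eq ?_)
      congr 2
      ring
  by_cases hi : k = Nat.sqrt i ∨ k = Nat.sqrt i + 1
  · have h2 : chi k i = 1 := if_pos hi
    have h3 := chi_nonneg k j
    have h4 := th_nonneg i j
    nlinarith
  · by_cases hj : k = Nat.sqrt j ∨ k = Nat.sqrt j + 1
    · have h2 : chi k j = 1 := if_pos hj
      have h3 := chi_nonneg k i
      have h4 := th_nonneg i j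
      nlinarith
    · rw [win_zero hi, win_zero hj, sub_zero, abs_zero]
      exact mul_nonneg (add_nonneg (chi_nonneg _ _) (chi_nonneg _ _)) (th_nonneg _ _)

lemma sum_chi_le (K : Finset ℕ) (j : ℕ) : ∑ k ∈ K, chi k j ≤ 2 := by
  unfold chi
  rw [← Finset.sum_filter, Finset.sum_const, nsmul_eq_mul, mul_one]
  have h1 : (K.filter (fun k => k = Nat.sqrt j ∨ k = Nat.sqrt j + 1)) ⊆
      {Nat.sqrt j, Nat.sqrt j + 1} := by
    intro k hk
    rw [Finset.mem_insert, Finset.mem_singleton]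
    exact (Finset.mem_filter.1 hk).2
  have h2 := (Finset.card_le_card h1).trans Finset.card_le_two
  exact_mod_cast h2

lemma th_near {i j l : ℕ} (hl : 0 < l) (h : nearDiag (i, j)) (h' : l ≤ i ∨ l ≤ j) :
    th i j ≤ 2 / Real.sqrt l := by
  have hl0 : 0 < Real.sqrt l := Real.sqrt_pos.2 (by exact_mod_cast hl)
  have h1 : |Real.sqrt i - Real.sqrt j| * (Real.sqrt i + Real.sqrt j) ≤ 1 := by
    have h2 : |Real.sqrt i - Real.sqrt j| * (Real.sqrt i + Real.sqrt j) = |(i : ℝ) - j| := by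
      have h3 : (0 : ℝ) ≤ Real.sqrt i + Real.sqrt j := by positivity
      rw [← abs_of_nonneg h3, ← abs_mul]
      congr 1
      have hi := Real.sq_sqrt (Nat.cast_nonneg (α := ℝ) i)
      have hj := Real.sq_sqrt (Nat.cast_nonneg (α := ℝ) j)
      nlinarith
    rw [h2]
    obtain ⟨ha, hb⟩ := h
    have ha' : (i : ℝ) ≤ j + 1 := by exact_mod_cast ha
    have hb' : (j : ℝ) ≤ i + 1 := by exact_mod_cast hb
    rw [abs_le]
    constructor <;> linarith
  have h4 : Real.sqrt l ≤ Real.sqrt i + Real.sqrt j := by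
    rcases h' with h' | h'
    · have : Real.sqrt l ≤ Real.sqrt i := Real.sqrt_le_sqrt (by exact_mod_cast h')
      have := Real.sqrt_nonneg (j : ℝ)
      linarith
    · have : Real.sqrt l ≤ Real.sqrt j := Real.sqrt_le_sqrt (by exact_mod_cast h')
      have := Real.sqrt_nonneg (i : ℝ)
      linarith
  have h5 : |Real.sqrt i - Real.sqrt j| ≤ 1 / Real.sqrt l := by
    rw [le_div_iff₀ hl0]
    exact (mul_le_mul_of_nonneg_left h4 (abs_nonneg _)).trans h1
  refine (min_le_right _ _).trans ?_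
  calc 2 * |Real.sqrt i - Real.sqrt j| ≤ 2 * (1 / Real.sqrt l) := by linarith
    _ = 2 / Real.sqrt l := by ring

/-! ### the scalar estimate -/

lemma nearDiag_comm {i j : ℕ} : nearDiag (i, j) ↔ nearDiag (j, i) := by
  unfold nearDiag
  exact and_comm

lemma card_near (i : ℕ) (s : Finset ℕ) : (s.filter (fun j => nearDiag (i, j))).card ≤ 3 := by
  have h1 : s.filter (fun j => nearDiag (i, j)) ⊆ Finset.Icc (i - 1) (i + 1) := by
    intro j hj
    obtain ⟨ha, hb⟩ := (Finset.mem_filter.1 hj).2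
    rw [Finset.mem_Icc]
    change i ≤ j + 1 at ha
    change j ≤ i + 1 at hb
    omega
  refine (Finset.card_le_card h1).trans ?_
  rw [Nat.card_Icc]
  omega

lemma scalar_row {a : ℕ → ℕ → ℝ} {C : ℝ} (ha : ∀ i j, 0 ≤ a i j) (hC : ∀ i j, a i j ≤ C)
    {l : ℕ} (hl : 0 < l) {F : Finset (ℕ × ℕ)} (hF : ∀ x ∈ F, x.1 < l ∧ x.2 < l) {ε : ℝ}
    (hε : ∀ t : Finset (ℕ × ℕ), Disjoint t F →
      ∑ x ∈ t, (if nearDiag x then 0 else a x.1 x.2) ≤ ε) (i : ℕ) (s : Finset ℕ) :
    ∑ j ∈ s, (if l ≤ i ∨ l ≤ j then th i j * a i j else 0) ≤ 3 * (2 / Real.sqrt l * C) + ε := by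
  have hC0 : 0 ≤ C := (ha 0 0).trans (hC 0 0)
  have h1 : ∀ j ∈ s, (if l ≤ i ∨ l ≤ j then th i j * a i j else 0) ≤
      (if nearDiag (i, j) then 2 / Real.sqrt l * C else 0) +
      (if l ≤ i ∨ l ≤ j then (if nearDiag (i, j) then 0 else a i j) else 0) := by
    intro j _
    by_cases h : l ≤ i ∨ l ≤ j
    · rw [if_pos h, if_pos h]
      by_cases hn : nearDiag (i, j)
      · rw [if_pos hn, if_pos hn, add_zero]
        exact mul_le_mul (th_near hl hn h) (hC i j) (ha i j) (by positivity)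
      · rw [if_neg hn, if_neg hn, zero_add]
        exact mul_le_of_le_one_left (ha i j) (th_le_one i j)
    · rw [if_neg h, if_neg h, add_zero]
      split_ifs
      · positivity
      · exact le_rfl
  refine (Finset.sum_le_sum h1).trans ?_
  rw [Finset.sum_add_distrib]
  refine add_le_add ?_ ?_
  · rw [← Finset.sum_filter, Finset.sum_const, nsmul_eq_mul]
    refine mul_le_mul_of_nonneg_right ?_ (by positivity)
    exact_mod_cast card_near i s
  · rw [← Finset.sum_filter]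
    refine le_trans (le_of_eq ?_) (hε ((s.filter (fun j => l ≤ i ∨ l ≤ j)).image
      (fun j => (i, j))) ?_)
    · rw [Finset.sum_image]
      intro x _ y _ h
      exact (Prod.ext_iff.1 h).2
    · rw [Finset.disjoint_left]
      intro x hx hx'
      obtain ⟨j, hj, rfl⟩ := Finset.mem_image.1 hx
      have h2 := hF _ hx'
      have h3 := (Finset.mem_filter.1 hj).2
      have h4 : i < l := h2.1
      have h5 : j < l := h2.2
      omega

lemma scalar_est {a : ℕ → ℕ → ℝ} {C : ℝ} (ha : ∀ i j, 0 ≤ a i j) (hC : ∀ i j, a i j ≤ C)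
    (hs : Summable (fun x : ℕ × ℕ => if nearDiag x then 0 else a x.1 x.2)) {ε : ℝ}
    (hε : 0 < ε) : ∃ l : ℕ,
      (∀ i (s : Finset ℕ), ∑ j ∈ s, (if l ≤ i ∨ l ≤ j then th i j * a i j else 0) ≤ ε) ∧
      (∀ j (s : Finset ℕ), ∑ i ∈ s, (if l ≤ i ∨ l ≤ j then th i j * a i j else 0) ≤ ε) := by
  have hC0 : 0 ≤ C := (ha 0 0).trans (hC 0 0)
  have hs' := hs
  rw [summable_iff_vanishing_norm] at hs'
  obtain ⟨F, hF⟩ := hs' (ε / 2) (by positivity)
  have hF' : ∀ t : Finset (ℕ × ℕ), Disjoint t F →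
      ∑ x ∈ t, (if nearDiag x then 0 else a x.1 x.2) ≤ ε / 2 := fun t ht =>
    (le_abs_self _).trans (hF t ht).le
  -- the bound for the finite set
  obtain ⟨l₁, hl₁⟩ : ∃ l₁ : ℕ, ∀ x ∈ F, x.1 < l₁ ∧ x.2 < l₁ := by
    refine ⟨F.sup (fun x => x.1 + x.2) + 1, fun x hx => ?_⟩
    have h := Finset.le_sup (f := fun x : ℕ × ℕ => x.1 + x.2) hx
    change x.1 + x.2 ≤ _ at h
    omega
  obtain ⟨l₂, hl₂⟩ := exists_nat_ge ((12 * C / ε) ^ 2)
  set l := max l₁ l₂ + 1 with hl
  have hl0 : 0 < l := Nat.succ_pos _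
  have hsl : 3 * (2 / Real.sqrt l * C) ≤ ε / 2 := by
    have h1 : 12 * C / ε ≤ Real.sqrt l := by
      apply Real.le_sqrt_of_sq_le
      refine hl₂.trans ?_
      have : l₂ ≤ l := by omega
      exact_mod_cast this
    have h2 : 0 < Real.sqrt l := Real.sqrt_pos.2 (by exact_mod_cast hl0)
    rw [div_le_iff₀ hε] at h1
    have h3 : 3 * (2 / Real.sqrt l * C) = 6 * C / Real.sqrt l := by ring
    rw [h3, div_le_iff₀ h2]
    nlinarith
  have hFl : ∀ x ∈ F, x.1 < l ∧ x.2 < l := fun x hx => by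
    have := hl₁ x hx
    omega
  refine ⟨l, fun i s => ?_, fun j s => ?_⟩
  · have := scalar_row ha hC hl0 hFl hF' i s
    linarith
  · have h1 := scalar_row (a := fun i j => a j i) (fun i j => ha j i) (fun i j => hC j i) hl0
      (F := F.image Prod.swap) (by
        intro x hx
        obtain ⟨y, hy, rfl⟩ := Finset.mem_image.1 hx
        exact (hFl y hy).symm) (ε := ε / 2) (by
        intro t ht
        have h2 := hF' (t.image Prod.swap) (by
          rw [Finset.disjoint_left] at ht ⊢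
          intro x hx hx'
          obtain ⟨y, hy, rfl⟩ := Finset.mem_image.1 hx
          exact ht hy (Finset.mem_image.2 ⟨y.swap, hx', Prod.swap_swap y⟩))
        rw [Finset.sum_image (fun x _ y _ h => Prod.swap_injective h)] at h2
        refine le_trans (le_of_eq ?_) h2
        refine Finset.sum_congr rfl fun x _ => ?_
        obtain ⟨x, y⟩ := x
        change (if nearDiag (x, y) then 0 else a y x) = (if nearDiag (y, x) then 0 else a y x)
        simp only [nearDiag_comm (i := x) (j := y)]) j s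
    have h2 : ∀ i ∈ s, (if l ≤ i ∨ l ≤ j then th i j * a i j else 0) =
        (if l ≤ j ∨ l ≤ i then th j i * a i j else 0) := by
      intro i _
      have h3 : th i j = th j i := by unfold th; rw [abs_sub_comm]
      rw [h3]
      simp only [or_comm]
    rw [Finset.sum_congr rfl h2]
    linarith

/-- block numbers -/
lemma exists_beta (N : ℕ → ℕ) (hN : StrictMono N) (h0 : N 0 = 0) :
    ∃ β : ℕ → ℕ, ∀ n j, β n = j ↔ n ∈ blk N j := by
  have h1 : ∀ n, ∃ j, N j ≤ n ∧ n < N (j + 1) := by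
    intro n
    classical
    have hex : ∃ j, n < N (j + 1) := ⟨n, lt_of_lt_of_le (Nat.lt_succ_self n) (hN.id_le (n + 1))⟩
    refine ⟨Nat.find hex, ?_, Nat.find_spec hex⟩
    rcases Nat.eq_zero_or_pos (Nat.find hex) with h | h
    · rw [h, h0]
      exact Nat.zero_le _
    · have h2 := Nat.find_min hex (m := Nat.find hex - 1) (by omega)
      rw [Nat.sub_add_cancel h] at h2
      exact not_lt.1 h2
  choose β hβ using h1
  refine ⟨β, fun n j => ⟨fun h => h ▸ hβ n, fun h => ?_⟩⟩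
  obtain ⟨ha, hb⟩ := hβ n
  obtain ⟨hc, hd⟩ := h
  by_contra hne
  rcases Nat.lt_or_gt_of_ne hne with h2 | h2
  · have := hN.monotone (Nat.succ_le_of_lt h2)
    exact absurd hb (not_lt.2 (this.trans hc))
  · have := hN.monotone (Nat.succ_le_of_lt h2)
    exact absurd hd (not_lt.2 (this.trans ha))

end Pool.Agent.H30.BDFP
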